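import Pool.Agent.H24.RK.Cln
import Pool.Agent.H57.RQ.Rec
import Pool.Agent.H57.RQ.Kmk
import Pool.Agent.H24.RM.Kl

/-!
# [H24 RK NRM] Kummer characters of order `p ^ n` and normalised inertia generators

* `klr`: the Kummer character of order `p ^ n` of `b`.
* `NL n z L`: `t_v ϖ = z ϖ` for a root `ϖ ^ (p ^ n) = π_v`. `nl_exists`: every `L` can be normalised.
* `klr_dec`: it vanishes on the decomposition group of a prime at which `b` is close to `1`.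
* `tor_bk`: the torus of the cup product of two Kummer characters is the tame symbol of order `p ^ n`.
-/

set_option autoImplicit false

open scoped NumberField Pointwise
open IsDedekindDomain

noncomputable section

namespace H24.RK

open H63.MA H38.BB H38.BG H57.PC H57.BRA H57.RQ

variable {K : Type} [Field K] [NumberField K] {Ω : Type} [Field Ω] [Algebra K Ω] [IsAlgClosure K Ω]
  {p : ℕ} {ζ : K}

/-- `Θ` is the Kummer character of order `p ^ n` of `b` -/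
structure KC (p n : ℕ) (z : K) (b : Kˣ) (Θ : Gal(Ω/K) → ZMod (p ^ n)) : Prop where
  ex : ∃ B : Ω, B ≠ 0 ∧ B ^ p ^ n = algebraMap K Ω (b : K) ∧
    ∀ σ : Gal(Ω/K), σ B = algebraMap K Ω z ^ (Θ σ).val * B
  lev : Lev Θ
  mul : ∀ σ τ, Θ (σ * τ) = Θ σ + Θ τ

omit [NumberField K] [IsAlgClosure K Ω] in
theorem zpow_val {q : ℕ} [NeZero q] {z : K} (hz : IsPrimitiveRoot z q) (j : ℕ) :
    algebraMap K Ω z ^ ((j : ZMod q).val) = algebraMap K Ω z ^ j := by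
  rw [ZMod.val_natCast]
  refine (pow_eq_pow_mod j ?_).symm
  rw [← map_pow, hz.pow_eq_one, map_one]

omit [NumberField K] [IsAlgClosure K Ω] in
theorem zpow_inj {q : ℕ} [NeZero q] {z : K} (hz : IsPrimitiveRoot z q) {a b : ZMod q}
    (h : algebraMap K Ω z ^ a.val = algebraMap K Ω z ^ b.val) : a = b := by
  have hZ : IsPrimitiveRoot (algebraMap K Ω z) q := hz.map_of_injective (algebraMap K Ω).injective
  exact ZMod.val_injective q (hZ.pow_inj a.val_lt b.val_lt h)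

omit [NumberField K] [IsAlgClosure K Ω] in
theorem zpow_add' {q : ℕ} [NeZero q] {z : K} (hz : IsPrimitiveRoot z q) (a b : ZMod q) :
    algebraMap K Ω z ^ (a + b).val = algebraMap K Ω z ^ a.val * algebraMap K Ω z ^ b.val := by
  rw [← pow_add, ← zpow_val (Ω := Ω) hz (a.val + b.val)]
  congr 2
  rw [Nat.cast_add, ZMod.natCast_zmod_val, ZMod.natCast_zmod_val]

theorem klr (hp : p.Prime) {n : ℕ} {z : K} (hz : IsPrimitiveRoot z (p ^ n)) (b : Kˣ) :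
    ∃ Θ : Gal(Ω/K) → ZMod (p ^ n), KC p n z b Θ := by
  have hcl : IsAlgClosed Ω := IsAlgClosure.isAlgClosed K
  have hpn : 0 < p ^ n := pow_pos hp.pos n
  have hne : NeZero (p ^ n) := ⟨hpn.ne'⟩
  obtain ⟨B, hB⟩ := IsAlgClosed.exists_pow_nat_eq (algebraMap K Ω (b : K)) hpn
  have hB0 : B ≠ 0 := by
    intro h0
    rw [h0, zero_pow hpn.ne'] at hB
    exact b.ne_zero ((map_eq_zero (algebraMap K Ω)).1 hB.symm)
  have hex : ∀ σ : Gal(Ω/K), ∃ j : ℕ, σ B = algebraMap K Ω z ^ j * B := fun σ =>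
    H38.TD.root_ratio (K := K) hpn hz hB0 (by rw [← map_pow, hB, AlgEquiv.commutes])
  have hex2 : ∀ x : Ω, ∃ j : ZMod (p ^ n), (∃ i : ℕ, x = algebraMap K Ω z ^ i * B) →
      x = algebraMap K Ω z ^ j.val * B := by
    intro x
    by_cases h : ∃ i : ℕ, x = algebraMap K Ω z ^ i * B
    · obtain ⟨i, hi⟩ := h
      exact ⟨(i : ZMod (p ^ n)), fun _ => by rw [zpow_val hz, hi]⟩
    · exact ⟨0, fun h' => absurd h' h⟩
  choose J hJ using hex2
  have hσ : ∀ σ : Gal(Ω/K), σ B = algebraMap K Ω z ^ (J (σ B)).val * B := fun σ => hJ _ (hex σ)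
  refine ⟨fun σ => J (σ B), ⟨B, hB0, hB, hσ⟩, ?_, fun σ τ => ?_⟩
  · have hint : IsIntegral K B := (Algebra.IsAlgebraic.isAlgebraic B).isIntegral
    refine ⟨IntermediateField.adjoin K {B}, IntermediateField.adjoin.finiteDimensional hint,
      fun σ u hu => ?_⟩
    rw [IntermediateField.mem_fixingSubgroup_iff] at hu
    have h1 : u B = B := hu B (IntermediateField.mem_adjoin_simple_self K B)
    show J ((σ * u) B) = J (σ B)
    rw [AlgEquiv.mul_apply, h1]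
  · apply zpow_inj (Ω := Ω) hz
    apply mul_right_cancel₀ hB0
    have h1 : σ (algebraMap K Ω z ^ (J (τ B)).val * B) =
        algebraMap K Ω z ^ (J (τ B)).val * (algebraMap K Ω z ^ (J (σ B)).val * B) := by
      rw [map_mul, map_pow, AlgEquiv.commutes, ← hσ σ]
    rw [← hσ τ] at h1
    rw [← hσ (σ * τ), zpow_add' hz, AlgEquiv.mul_apply, h1]
    ring

/-- any root of `b` may be used -/
theorem KC.root {n : ℕ} {z : K} {b : Kˣ} {Θ : Gal(Ω/K) → ZMod (p ^ n)} (h : KC p n z b Θ)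
    (hp : p.Prime) (hz : IsPrimitiveRoot z (p ^ n)) {B : Ω} (hB : B ^ p ^ n = algebraMap K Ω (b : K))
    (σ : Gal(Ω/K)) : σ B = algebraMap K Ω z ^ (Θ σ).val * B := by
  obtain ⟨B', hB0, hB', h1⟩ := h.ex
  obtain ⟨j, rfl⟩ := H38.TD.root_ratio (K := K) (pow_pos hp.pos n) hz hB0 (hB.trans hB'.symm)
  rw [map_mul, map_pow, AlgEquiv.commutes, h1]
  ring

theorem KC.val {n : ℕ} {z : K} {b : Kˣ} {Θ : Gal(Ω/K) → ZMod (p ^ n)} (h : KC p n z b Θ)
    (hp : p.Prime) (hz : IsPrimitiveRoot z (p ^ n)) {B : Ω} (hB : B ^ p ^ n = algebraMap K Ω (b : K))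
    {σ : Gal(Ω/K)} {j : ℕ} (hj : σ B = algebraMap K Ω z ^ j * B) : Θ σ = j := by
  have hne : NeZero (p ^ n) := ⟨pow_ne_zero _ hp.ne_zero⟩
  have hB0 : B ≠ 0 := by
    intro h0
    rw [h0, zero_pow (pow_ne_zero n hp.ne_zero)] at hB
    exact b.ne_zero ((map_eq_zero (algebraMap K Ω)).1 hB.symm)
  apply zpow_inj (Ω := Ω) hz
  rw [zpow_val hz]
  apply mul_right_cancel₀ hB0
  rw [← hj, h.root hp hz hB]

/-- reduction modulo `p` -/
theorem KC.cast {n : ℕ} {z : K} {b : Kˣ} {Θ : Gal(Ω/K) → ZMod (p ^ (n + 1))}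
    (h : KC p (n + 1) z b Θ) (hp : p.Prime) (hz : IsPrimitiveRoot z (p ^ (n + 1)))
    (hζ : IsPrimitiveRoot ζ p) (hzζ : z ^ p ^ n = ζ) (σ : Gal(Ω/K)) :
    (((Θ σ).val : ℕ) : ZMod p) = kk p ζ b σ := by
  obtain ⟨B, hB0, hB, h1⟩ := h.ex
  have h2 : (B ^ p ^ n) ^ p = algebraMap K Ω (b : K) := by rw [← pow_mul, ← pow_succ, hB]
  have h3 := kk_of_root hp hζ b (B ^ p ^ n) h2 σ (((Θ σ).val : ℕ) : ℤ) (by
    rw [map_pow, h1, mul_pow, ← hzζ, map_pow, zpow_natCast, ← pow_mul, ← pow_mul,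
      mul_comm (Θ σ).val])
  rw [h3, Int.cast_natCast]

theorem klr_dec (hp : p.Prime) {n : ℕ} {z : K} (hz : IsPrimitiveRoot z (p ^ n)) {b : Kˣ}
    {Θ : Gal(Ω/K) → ZMod (p ^ n)} (h : KC p n z b Θ) {v : Pl K} {P : Ideal (𝓞 Ω)}
    (hP : P.IsPrime) (hP0 : P ≠ ⊥) (hPv : P.under (𝓞 K) = v.asIdeal)
    (hb : v.valuation K ((b : K) - 1) < v.valuation K ((p : K) ^ (n + 1))) (σ : Gal(Ω/K))
    (hσ : σ ∈ dec (K := K) P) : Θ σ = 0 := by
  obtain ⟨B, hB0, hB, h1⟩ := h.ex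
  have h2 := cln_fix hp P hP hP0 n ⟨z, hz⟩ _ B (cln_of_val v P hPv b hb) hB σ hσ (σ.commutes _)
  have h3 := h.val hp hz hB (σ := σ) (j := 0) (by rw [pow_zero, one_mul, h2])
  rw [h3, Nat.cast_zero]

/-- the inertia generators are normalised by `z` -/
def NL (n : ℕ) (z : K) {D : RD0 K p ζ} (L : LDs D Ω) : Prop := ∀ v (hv : v ∉ D.S0), ∃ ϖ : Ω,
  ϖ ^ p ^ n = algebraMap K Ω (D.pi v : K) ∧ (L.ld v hv).t ϖ = algebraMap K Ω z * ϖ

theorem nl_one (hp : p.Prime) {n : ℕ} {z : K} (hz : IsPrimitiveRoot z (p ^ (n + 1)))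
    (hζ : IsPrimitiveRoot ζ p) (hzζ : z ^ p ^ n = ζ) {v : Pl K} {π : Kˣ} (L : LD p ζ Ω v π) :
    ∃ (L' : LD p ζ Ω v π) (j : ℕ), L'.P = L.P ∧ L'.w = L.w ∧ L'.t = L.t ^ j ∧
      ∃ ϖ : Ω, ϖ ^ p ^ (n + 1) = algebraMap K Ω (π : K) ∧ L'.t ϖ = algebraMap K Ω z * ϖ := by
  have hcl : IsAlgClosed Ω := IsAlgClosure.isAlgClosed K
  have hinj := (algebraMap K Ω).injective
  have hq : 0 < p ^ (n + 1) := pow_pos hp.pos _
  obtain ⟨ϖ, hϖ⟩ := IsAlgClosed.exists_pow_nat_eq L.w (pow_pos hp.pos n)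
  have hϖq : ϖ ^ p ^ (n + 1) = algebraMap K Ω (π : K) := by
    rw [pow_succ, pow_mul, hϖ, L.hw]
  have hϖ0 : ϖ ≠ 0 := by
    intro h0
    rw [h0, zero_pow hq.ne'] at hϖq
    exact π.ne_zero (hinj (by rw [map_zero]; exact hϖq.symm))
  have hLw0 : L.w ≠ 0 := by
    rw [← hϖ]
    exact pow_ne_zero _ hϖ0
  have hzΩ : IsPrimitiveRoot (algebraMap K Ω z) (p ^ (n + 1)) := hz.map_of_injective hinj
  have hζΩ : IsPrimitiveRoot (algebraMap K Ω ζ) p := hζ.map_of_injective hinj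
  obtain ⟨m, hm⟩ := H38.TD.root_ratio (K := K) hq hz (x := L.t ϖ) hϖ0
    (by rw [← map_pow, hϖq, AlgEquiv.commutes])
  have hact : ∀ i : ℕ, (L.t ^ i) ϖ = algebraMap K Ω z ^ (m * i) * ϖ := by
    intro i
    induction i with
    | zero => rw [pow_zero, mul_zero, pow_zero, one_mul]; rfl
    | succ i ih =>
      rw [pow_succ', AlgEquiv.mul_apply, ih, map_mul, map_pow, AlgEquiv.commutes, hm, mul_add,
        mul_one, pow_add]
      ring
  -- `m` is `1` modulo `p`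
  have hm1 : algebraMap K Ω ζ ^ m = algebraMap K Ω ζ := by
    apply mul_right_cancel₀ hLw0
    rw [← L.act, ← hϖ, map_pow, hm, mul_pow, ← hzζ, map_pow, ← pow_mul, ← pow_mul, mul_comm m]
  have hmp : ¬ p ∣ m := by
    rintro ⟨c, hc⟩
    rw [hc, pow_mul, hζΩ.pow_eq_one, one_pow] at hm1
    exact hζΩ.ne_one hp.one_lt hm1.symm
  have hcop : Nat.Coprime m (p ^ (n + 1)) :=
    (Nat.Coprime.pow_left _ ((Nat.Prime.coprime_iff_not_dvd hp).2 hmp)).symm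
  obtain ⟨j, -, hj⟩ := Nat.exists_mul_mod_eq_one_of_coprime hcop (Nat.one_lt_pow (by omega) hp.one_lt)
  have hzj : algebraMap K Ω z ^ (m * j) = algebraMap K Ω z := by
    have h1 : algebraMap K Ω z ^ (m * j) = algebraMap K Ω z ^ (m * j % p ^ (n + 1)) :=
      pow_eq_pow_mod _ hzΩ.pow_eq_one
    rw [h1, hj, pow_one]
  have hactj : (L.t ^ j) ϖ = algebraMap K Ω z * ϖ := by rw [hact, hzj]
  refine ⟨⟨L.P, L.prime, L.under, L.w, L.hw, L.t ^ j, pow_mem L.ht j, ?_⟩, j, rfl, rfl, rfl, ϖ,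
    hϖq, hactj⟩
  rw [← hϖ, map_pow, hactj, mul_pow, ← hzζ, map_pow]

/-- every `L` can be normalised -/
theorem nl_exists (hp : p.Prime) {n : ℕ} {z : K} (hz : IsPrimitiveRoot z (p ^ (n + 1)))
    (hζ : IsPrimitiveRoot ζ p) (hzζ : z ^ p ^ n = ζ) {D : RD0 K p ζ} (L : LDs D Ω) :
    ∃ L' : LDs D Ω, NL (n + 1) z L' ∧ ∀ v hv, (L'.ld v hv).P = (L.ld v hv).P ∧
      ∃ j : ℕ, (L'.ld v hv).t = (L.ld v hv).t ^ j := by
  choose L' j h1 h2 h3 h4 using fun v hv => nl_one hp hz hζ hzζ (L.ld v hv)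
  exact ⟨⟨L'⟩, fun v hv => h4 v hv, fun v hv => ⟨h1 v hv, j v hv, h3 v hv⟩⟩

omit [IsAlgClosure K Ω] in
theorem NL.mono {n m : ℕ} {z : K} {D : RD0 K p ζ} {L : LDs D Ω} (h : NL n z L) (hm : m ≤ n) :
    NL m (z ^ p ^ (n - m)) L := by
  intro v hv
  obtain ⟨ϖ, h1, h2⟩ := h v hv
  refine ⟨ϖ ^ p ^ (n - m), ?_, ?_⟩
  · rw [← pow_mul, ← pow_add, Nat.sub_add_cancel hm, h1]
  · rw [map_pow, h2, mul_pow, map_pow]

/-- the value of the Kummer character of a unit at a Frobenius element -/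
theorem kc_unit_fr (hp : p.Prime) {n : ℕ} {z : K} (hz : IsPrimitiveRoot z (p ^ n)) {u : Kˣ}
    {Θ : Gal(Ω/K) → ZMod (p ^ n)} (h : KC p n z u Θ) {v : Pl K} (hv : ¬ Above p v)
    (hu : ord v u = 0) {P : Ideal (𝓞 Ω)} (hP : P.IsPrime) (hPv : P.under (𝓞 K) = v.asIdeal)
    {F : Gal(Ω/K)} (hF : ∀ x : 𝓞 Ω, F • x - x ^ nm v ∈ P) : Θ F = lg (p ^ n) z v u := by
  obtain ⟨B, hB0, hB, h1⟩ := h.ex
  obtain ⟨π, hπ⟩ := exists_unif v
  have h2 := kmk_fr hp hz hB h1 hv (by rw [hu]; exact dvd_zero _) hπ hP hPv hF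
  rw [h2, hu, zpow_zero, inv_one, mul_one]

/-- the Kummer character of a unit is trivial on inertia -/
theorem kc_unit_in (hp : p.Prime) {n : ℕ} {z : K} (hz : IsPrimitiveRoot z (p ^ n)) {u : Kˣ}
    {Θ : Gal(Ω/K) → ZMod (p ^ n)} (h : KC p n z u Θ) {v : Pl K} (hv : ¬ Above p v)
    (hu : ord v u = 0) {P : Ideal (𝓞 Ω)} (hP : P.IsPrime) (hPv : P.under (𝓞 K) = v.asIdeal)
    {F : Gal(Ω/K)} (hF : ∀ x : 𝓞 Ω, F • x - x ^ nm v ∈ P) {τ : Gal(Ω/K)}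
    (hτ : τ ∈ P.inertia Gal(Ω/K)) : Θ τ = 0 := by
  have h1 := kc_unit_fr hp hz h hv hu hP hPv hF
  have h2 := kc_unit_fr hp hz h hv hu hP hPv (F := τ * F) (fun x => by
    have h3 : (τ * F) • x - x ^ nm v = (τ • (F • x) - F • x) + (F • x - x ^ nm v) := by
      rw [mul_smul]
      ring
    rw [h3]
    exact P.add_mem (hτ (F • x)) (hF x))
  rw [h.mul, h1] at h2
  exact left_eq_add.1 (by rw [add_comm]; exact h2.symm)

/-- the values of a Kummer character at the normalised local data -/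
theorem kc_loc (hp : p.Prime) {n : ℕ} {z : K} (hz : IsPrimitiveRoot z (p ^ n)) {v : Pl K}
    (hv : ¬ Above p v) {π : Kˣ} (hπ : ord v π = 1) {P : Ideal (𝓞 Ω)} (hP : P.IsPrime)
    (hPv : P.under (𝓞 K) = v.asIdeal) {F t : Gal(Ω/K)} (hF : ∀ x : 𝓞 Ω, F • x - x ^ nm v ∈ P)
    (ht : t ∈ P.inertia Gal(Ω/K)) {ϖ : Ω} (hϖ : ϖ ^ p ^ n = algebraMap K Ω (π : K))
    (htϖ : t ϖ = algebraMap K Ω z * ϖ) : ∃ f : ZMod (p ^ n), ∀ (a : Kˣ)
      (Θ : Gal(Ω/K) → ZMod (p ^ n)), KC p n z a Θ →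
        Θ F = lg (p ^ n) z v (a * π ^ (-ord v a)) + f * (ord v a : ℤ) ∧ Θ t = (ord v a : ℤ) := by
  have hq : 0 < p ^ n := pow_pos hp.pos n
  have hne : NeZero (p ^ n) := ⟨hq.ne'⟩
  have hϖ0 : ϖ ≠ 0 := by
    intro h0
    rw [h0, zero_pow hq.ne'] at hϖ
    exact π.ne_zero ((map_eq_zero (algebraMap K Ω)).1 hϖ.symm)
  obtain ⟨f, hf⟩ := H38.TD.root_ratio (K := K) hq hz (x := F ϖ) hϖ0
    (by rw [← map_pow, hϖ, AlgEquiv.commutes])
  have hZ : IsPrimitiveRoot (algebraMap K Ω z) (p ^ n) :=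
    hz.map_of_injective (algebraMap K Ω).injective
  have hZ0 : algebraMap K Ω z ≠ 0 := hZ.ne_zero hq.ne'
  refine ⟨(f : ZMod (p ^ n)), fun a Θ hΘ => ?_⟩
  obtain ⟨A, hA0, hA, hAσ⟩ := hΘ.ex
  have hu0 : ord v (a * π ^ (-ord v a)) = 0 := by
    rw [ord_mul, ord_zpow, hπ]
    ring
  obtain ⟨Ψ, hΨ⟩ := klr (Ω := Ω) hp hz (a * π ^ (-ord v a))
  set y : Ω := A * ϖ ^ (-ord v a) with hy
  have hyq : y ^ p ^ n = algebraMap K Ω ((a * π ^ (-ord v a) : Kˣ) : K) := by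
    rw [hy, mul_pow, hA, ← zpow_natCast, ← zpow_mul, mul_comm (-ord v a), zpow_mul, zpow_natCast,
      hϖ, Units.val_mul, map_mul, Units.val_zpow_eq_zpow_val, map_zpow₀]
  have hAy : A = y * ϖ ^ ord v a := by
    rw [hy, mul_assoc, ← zpow_add₀ hϖ0, neg_add_cancel, zpow_zero, mul_one]
  -- the general formula
  have key : ∀ (σ : Gal(Ω/K)) (g : ℕ), σ ϖ = algebraMap K Ω z ^ g * ϖ →
      Θ σ = Ψ σ + g * (ord v a : ℤ) := by
    intro σ g hg
    have h1 : σ A = algebraMap K Ω z ^ (((Ψ σ).val : ℤ) + g * ord v a) * A := by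
      rw [hAy, map_mul, map_zpow₀, hg, hΨ.root hp hz hyq, mul_zpow, zpow_add₀ hZ0, zpow_natCast,
        zpow_mul, zpow_natCast]
      ring
    have h2 : ∃ j : ℕ, ((j : ℤ) : ZMod (p ^ n)) = ((((Ψ σ).val : ℤ) + g * ord v a : ℤ) : ZMod (p ^ n)) ∧
        algebraMap K Ω z ^ (((Ψ σ).val : ℤ) + g * ord v a) = algebraMap K Ω z ^ j := by
      set e : ℤ := ((Ψ σ).val : ℤ) + g * ord v a with he
      have hq' : (0 : ℤ) < ((p ^ n : ℕ) : ℤ) := by exact_mod_cast hq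
      have h3 : 0 ≤ e % ((p ^ n : ℕ) : ℤ) := Int.emod_nonneg _ hq'.ne'
      obtain ⟨j, hj⟩ := Int.eq_ofNat_of_zero_le h3
      refine ⟨j, ?_, ?_⟩
      · rw [← hj, ZMod.intCast_mod]
      · rw [← zpow_natCast (algebraMap K Ω z) j, ← hj]
        have h4 : e = e % ((p ^ n : ℕ) : ℤ) + ((p ^ n : ℕ) : ℤ) * (e / ((p ^ n : ℕ) : ℤ)) :=
          (Int.emod_add_mul_ediv _ _).symm
        conv_lhs => rw [h4]
        rw [zpow_add₀ hZ0, zpow_mul, zpow_natCast _ (p ^ n), hZ.pow_eq_one, one_zpow, mul_one]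
    obtain ⟨j, hj1, hj2⟩ := h2
    rw [hj2] at h1
    rw [hΘ.val hp hz hA h1]
    rw [Int.cast_natCast] at hj1
    rw [hj1]
    push_cast
    rw [ZMod.natCast_zmod_val]
  constructor
  · rw [key F f hf, kc_unit_fr hp hz hΨ hv hu0 hP hPv hF]
  · rw [key t 1 (by rw [pow_one]; exact htϖ), kc_unit_in hp hz hΨ hv hu0 hP hPv hF ht, Nat.cast_one,
      one_mul, zero_add]

/-- the torus of the cup product of two Kummer characters -/
theorem tor_bk (hp : p.Prime) {n : ℕ} {z : K} (hz : IsPrimitiveRoot z (p ^ n)) {D : RD0 K p ζ}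
    {L : LDs D Ω} (hL : NL n z L) (Fr : FR L) {a d : Kˣ} {Θ Ψ : Gal(Ω/K) → ZMod (p ^ n)}
    (hΘ : KC p n z a Θ) (hΨ : KC p n z d Ψ) {v : Pl K} (hv : v ∉ D.S0) :
    Θ (Fr.F v) * Ψ (L.t v) - Θ (L.t v) * Ψ (Fr.F v) = Bk p n z v a d := by
  have hna : ¬ Above p v := fun h => hv (D.above v h)
  have ht : L.t v = (L.ld v hv).t := by rw [LDs.t, dif_pos hv]
  have hπ := D.pi_self v hv
  obtain ⟨ϖ, hϖ, htϖ⟩ := hL v hv
  obtain ⟨f, hf⟩ := kc_loc hp hz hna hπ (L.ld v hv).prime (L.ld v hv).under (Fr.fr v hv)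
    (L.ld v hv).ht hϖ htϖ
  obtain ⟨h1, h2⟩ := hf a Θ hΘ
  obtain ⟨h3, h4⟩ := hf d Ψ hΨ
  rw [ht, h1, h2, h3, h4]
  set π := D.pi v with hπdef
  have hua : ord v (a * π ^ (-ord v a)) = 0 := by
    rw [ord_mul, ord_zpow, hπ]
    ring
  have hud : ord v (d * π ^ (-ord v d)) = 0 := by
    rw [ord_mul, ord_zpow, hπ]
    ring
  have ea : a = (a * π ^ (-ord v a)) * π ^ ord v a := by
    rw [mul_assoc, ← zpow_add, neg_add_cancel, zpow_zero, mul_one]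
  have ed : d = (d * π ^ (-ord v d)) * π ^ ord v d := by
    rw [mul_assoc, ← zpow_add, neg_add_cancel, zpow_zero, mul_one]
  have e1 : Bk p n z v a d = (ord v d : ℤ) * lg (p ^ n) z v (a * π ^ (-ord v a)) -
      (ord v a : ℤ) * lg (p ^ n) z v (d * π ^ (-ord v d)) := by
    have e2 : Bk p n z v a d = Bk p n z v ((a * π ^ (-ord v a)) * π ^ ord v a)
        ((d * π ^ (-ord v d)) * π ^ ord v d) := by rw [← ea, ← ed]
    have b1 : Bk p n z v (a * π ^ (-ord v a)) (d * π ^ (-ord v d)) = 0 := by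
      rw [bk_unit hp hz hna hua, hud, Int.cast_zero, zero_mul]
    have b2 : Bk p n z v (a * π ^ (-ord v a)) (π ^ ord v d) =
        (ord v d : ℤ) * lg (p ^ n) z v (a * π ^ (-ord v a)) := by
      rw [bk_zpow_right hp hz, bk_unit hp hz hna hua, hπ, Int.cast_one, one_mul]
    have b3 : Bk p n z v (π ^ ord v a) (d * π ^ (-ord v d)) =
        -((ord v a : ℤ) * lg (p ^ n) z v (d * π ^ (-ord v d))) := by
      rw [bk_zpow_left hp hz, bk_symm hp hz v π, bk_unit hp hz hna hud, hπ, Int.cast_one, one_mul,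
        mul_neg]
    have b4 : Bk p n z v (π ^ ord v a) (π ^ ord v d) = 0 := by
      rw [bk_zpow_left hp hz, bk_zpow_right hp hz, bk_self hp hz, mul_zero, mul_zero]
    rw [e2, bk_mul_left hp hz, bk_mul_right hp hz v (a * π ^ (-ord v a)) (d * π ^ (-ord v d)),
      bk_mul_right hp hz v (π ^ ord v a) (d * π ^ (-ord v d)), b1, b2, b3, b4]
    ring
  rw [e1]
  ring

end H24.RK
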