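import Pool.Agent.H24.RK.Has
import Pool.Agent.H48.MF.Brf

/-!
# [H24 RK BRF] Hasse principle and product formula, inertia of order `p ^ k`

`brg1K`, `brg3K`, `brg3dK` as `brg1f`, `brg3f`, `brg3df` (H48/MF/Brf.lean) with the tame condition `ρ τ ^ (p ^ k) = 1` outside `S0`; `K` contains the roots of unity of
order `p ^ (k + 1)`, `k ≥ 1`.
-/

set_option autoImplicit false

open scoped NumberField Pointwise
open IsDedekindDomain

noncomputable section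

namespace H24.RK

open H63.MA H38.BB H38.BG H57.PC H57.BRA H89.BRG

variable {K : Type} [Field K] [NumberField K] {Ω : Type} [Field Ω] [Algebra K Ω] [IsAlgClosure K Ω]
  {p : ℕ} {ζ : K}

theorem brg1K {k : ℕ} (hk : 0 < k) (hp : p.Prime) (hp2 : MOne p K) (hζ : IsPrimitiveRoot ζ p) (hz : Zn p (k + 1) K)
    {D : RD0 K p ζ} {L : LDs D Ω} (Q : DP K Ω) (Fr : FR L) {R : Type} [Group R] [Finite R]
    {e : R → R → ZMod p} (he : Coc p e) {ρ : Gal(Ω/K) →* R} (hρ : H38.ML.FT ρ)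
    (hS : ∀ v ∈ D.S0, Kl (pb e ρ) (dec (K := K) (Q.P v) : Set Gal(Ω/K)))
    (htm : ∀ v, v ∉ D.S0 → ∀ τ ∈ inr L v, ρ τ ^ (p ^ k) = 1)
    (hiv : ∀ v, v ∉ D.S0 → iv e (ρ (Fr.F v)) (ρ (L.t v)) = 0) : Tv (pb e ρ) := by
  refine hasfK hk hp he hζ hp2 hz ρ hρ D.S0 D.above
    (brg_dc he hρ fun v hv => ⟨Q.P v, Q.prime v, Q.under v, qd_kl (hS v hv)⟩) (fun v hvS => ?_)
  intro P' hP' h'
  obtain ⟨h1, h2⟩ := brK_loc hp hζ hz Fr he hρ hvS (htm v hvS) P' hP' h'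
  refine ⟨h1, fun F' hF' τ' hτ' => ?_⟩
  obtain ⟨h3, k1, j, h4, -⟩ := h2 F' hF' τ' hτ'
  refine ⟨h3, ?_⟩
  rw [h4, hiv v hvS, mul_zero]

theorem brg3K {k : ℕ} (hk : 0 < k) (hp : p.Prime) (hp2 : MOne p K) (hζ : IsPrimitiveRoot ζ p) (hz : Zn p (k + 1) K)
    {D : RD0 K p ζ} {L : LDs D Ω} (Q : DP K Ω) (Fr : FR L) {R : Type} [Group R] [Finite R]
    {e : R → R → ZMod p} (he : Coc p e) {ρ : Gal(Ω/K) →* R} (hρ : H38.ML.FT ρ)
    (hS : ∀ v ∈ D.S0, Kl (pb e ρ) (dec (K := K) (Q.P v) : Set Gal(Ω/K)))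
    (htm : ∀ v, v ∉ D.S0 → ∀ τ ∈ inr L v, ρ τ ^ (p ^ k) = 1)
    (T : Finset (Pl K)) (hT : ∀ v ∈ T, v ∉ D.S0)
    (hur : ∀ v, v ∉ D.S0 → v ∉ T → ρ (L.t v) = 1)
    {lam : Pl K → ZMod p} (hlam : IsRec p ζ lam) :
    ∑ v ∈ T, lam v * iv e (ρ (Fr.F v)) (ρ (L.t v)) = 0 := by
  classical
  rcases T.eq_empty_or_nonempty with rfl | ⟨v₀, hv₀⟩
  · exact Finset.sum_empty
  have hpf : Fact p.Prime := ⟨hp⟩
  have hna : ∀ v, v ∉ D.S0 → ¬ Above p v := fun v hv h => hv (D.above v h)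
  obtain ⟨c2, hc1, hc2, hc3⟩ := aux2 hp hζ (D.S0.filter fun v => ¬ Above p v) T
    (fun v hv => (Finset.mem_filter.1 hv).2) (fun v hv => hna v (hT v hv))
    (fun v hv h => hT v h (Finset.mem_filter.1 hv).1)
  have hcp : ¬ IsPow p c2 := by
    rintro ⟨x, hx⟩
    obtain ⟨h3, h4⟩ := hc3 v₀ hv₀
    have h5 : ord v₀ x = 0 := by
      rw [← hx, ord_pow] at h3
      rcases mul_eq_zero.1 h3 with h | h
      · exact absurd (by exact_mod_cast h) hp.ne_zero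
      · exact h
    rw [← hx, ← zpow_natCast, lg_zpow hp hζ (hna v₀ (hT v₀ hv₀)) h5] at h4
    push_cast at h4
    rw [ZMod.natCast_self, zero_mul] at h4
    exact zero_ne_one h4
  obtain ⟨M, _, _, _, _, _, ⟨H⟩⟩ := bca_exists Ω hp hζ hcp
  have hclo : IsAlgClosure M Ω := bca_clo K M Ω
  have hM : Tv (pb e (ρ.comp (rsK K M Ω))) := by
    have hfin : {w : Pl M | ∃ v ∈ D.S0, Over w v}.Finite := by
      have h1 : {w : Pl M | ∃ v ∈ D.S0, Over w v} = ⋃ v ∈ D.S0, {w : Pl M | Over w v} := by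
        ext w
        simp only [Set.mem_ofPred_eq, Set.mem_iUnion, exists_prop]
      rw [h1]
      exact Set.Finite.biUnion D.S0.finite_toSet fun v _ => over_finite v
    have hmem : ∀ w : Pl M, w ∈ hfin.toFinset ↔ ∃ v ∈ D.S0, Over w v := by
      intro w
      rw [Set.Finite.mem_toFinset]
      rfl
    refine hasfK hk hp he (GBase_zeta hζ) (mone_map hp2 M) (hz.map M)
      (ρ.comp (rsK K M Ω)) (bca_ft hρ) hfin.toFinset
      (fun w hw => ?_) (fun w hw P hP hPw => ?_) (fun w hw => ?_)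
    · obtain ⟨v, hv⟩ := exists_below (K := K) w
      exact (hmem w).2 ⟨v, D.above v ((above_over hv p).1 hw), hv⟩
    · obtain ⟨v, hvS, hv⟩ := (hmem w).1 hw
      exact dc_kl_rs (brg_dc he hρ (fun v hv => ⟨Q.P v, Q.prime v, Q.under v, qd_kl (hS v hv)⟩)
        v hvS P hP (bcp_under hv hPw))
    · obtain ⟨v, hwv⟩ := exists_below (K := K) w
      have hvS : v ∉ D.S0 := fun h => hw ((hmem w).2 ⟨v, h, hwv⟩)
      intro P hP hPw
      obtain ⟨h1, h2⟩ := brK_loc hp hζ hz Fr he hρ hvS (htm v hvS) P hP (bcp_under hwv hPw)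
      refine ⟨fun τ hτ => h1 _ (bcp_inertia hτ), fun F' hF' τ' hτ' => ?_⟩
      obtain ⟨h3, k1, j, h4, h5⟩ := h2 (rsK K M Ω F') (bcp_frp hwv hPw hF') (rsK K M Ω τ')
        (bcp_inertia hτ')
      refine ⟨h3, ?_⟩
      change iv e (ρ (rsK K M Ω F')) (ρ (rsK K M Ω τ')) = 0
      rw [h4]
      by_cases hvT : v ∈ T
      · have h6 := h5 c2 (hc3 v hvT).1
        rw [(hc3 v hvT).2, mul_one, (bca_range hp hζ H _).2 ⟨F', rfl⟩] at h6
        rw [← h6, zero_mul, zero_mul]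
      · rw [hur v hvS hvT, iv_swap, iv_one_left he, neg_zero, mul_zero]
  obtain ⟨l', hl1, hl2⟩ := hM
  obtain ⟨l, hl3, hl4⟩ := bca_lev' (K := K) (L := M) hl1
  obtain ⟨d, hd⟩ := bq hp hζ (c2_pb he hρ) hcp ⟨l, hl3, fun σ hσ τ hτ => by
    obtain ⟨σ', rfl⟩ := (bca_range hp hζ H σ).1 hσ
    obtain ⟨τ', rfl⟩ := (bca_range hp hζ H τ).1 hτ
    rw [← map_mul, hl4, hl4, hl4]
    exact hl2 σ' τ'⟩
  have hB : ∀ v, v ∉ D.S0 → iv e (ρ (Fr.F v)) (ρ (L.t v)) = -B p ζ v c2 d := by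
    intro v hvS
    have htm' : TmK p k ρ (L.ld v hvS).P := fun τ hτ => htm v hvS τ (by
      rw [inr, dif_pos hvS]
      exact hτ)
    have h5 : L.t v = (L.ld v hvS).t := by rw [LDs.t, dif_pos hvS]
    have h6 := locK_one hk hp hζ he hρ c2 d (hna v hvS) (D.pi_self v hvS) (L.ld v hvS)
      (isFrK_of hp hζ hz Fr v hvS) htm' hd
    rw [h5]
    exact eq_neg_of_add_eq_zero_left h6
  have hsum := hlam.sum c2 hc1 d
  have hout : ∀ v, v ∉ T → lam v * B p ζ v c2 d = 0 := by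
    intro v hvT
    by_cases hva : Above p v
    · rw [hlam.above v hva, zero_mul]
    · by_cases hvS : v ∈ D.S0
      · rw [hc2 v (Finset.mem_filter.2 ⟨hvS, hva⟩) d, mul_zero]
      · have h1 := hB v hvS
        rw [hur v hvS hvT, iv_swap, iv_one_left he, neg_zero] at h1
        rw [neg_eq_zero.1 h1.symm, mul_zero]
  rw [finsum_eq_sum_of_support_subset (s := T) _ (by
    intro v hv
    by_contra hvT
    exact hv (hout v hvT))] at hsum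
  rw [← neg_zero, ← hsum, ← Finset.sum_neg_distrib]
  refine Finset.sum_congr rfl fun v hv => ?_
  rw [hB v (hT v hv), mul_neg]

/-- conjugation by a lift of `r` in the extension -/
private theorem cj {R : Type} [Group R] {e : R → R → ZMod p} (he : Coc p e) (r a b : R) :
    (e r a - e r⁻¹ r + e (r * a) r⁻¹) + (e r b - e r⁻¹ r + e (r * b) r⁻¹) +
      e (r * a * r⁻¹) (r * b * r⁻¹) =
      (e r (a * b) - e r⁻¹ r + e (r * (a * b)) r⁻¹) + e a b := by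
  obtain ⟨x, hx⟩ : ∃ x : Xt e he, x = ⟨r, 0⟩ := ⟨_, rfl⟩
  have h1 : (x * (⟨a, 0⟩ : Xt e he) * x⁻¹) * (x * (⟨b, 0⟩ : Xt e he) * x⁻¹) =
      x * ((⟨a, 0⟩ : Xt e he) * (⟨b, 0⟩ : Xt e he)) * x⁻¹ := by group
  rw [hx] at h1
  have h2 := congrArg Xt.z h1
  change ((0 + 0 + e r a) + (-0 - e r⁻¹ r) + e (r * a) r⁻¹) +
    ((0 + 0 + e r b) + (-0 - e r⁻¹ r) + e (r * b) r⁻¹) + e (r * a * r⁻¹) (r * b * r⁻¹) =
    (0 + (0 + 0 + e a b) + e r (a * b)) + (-0 - e r⁻¹ r) + e (r * (a * b)) r⁻¹ at h2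
  linear_combination h2

theorem brg3dK {k : ℕ} (hk : 0 < k) (hp : p.Prime) (hp2 : MOne p K) (hζ : IsPrimitiveRoot ζ p) (hz : Zn p (k + 1) K)
    {D : RD0 K p ζ} {L : LDs D Ω} (Q : DP K Ω) (Fr : FR L) {R : Type} [Group R] [Finite R]
    {e : R → R → ZMod p} (he : Coc p e) {ρ ρ' : Gal(Ω/K) →* R} (hρ : H38.ML.FT ρ)
    (hρ' : H38.ML.FT ρ')
    (hS : ∀ v ∈ D.S0, ∃ r : R, ∀ σ ∈ dec (K := K) (Q.P v), ρ' σ = r * ρ σ * r⁻¹)
    (htm : ∀ v, v ∉ D.S0 → ∀ τ ∈ inr L v, ρ τ ^ (p ^ k) = 1 ∧ ρ' τ ^ (p ^ k) = 1)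
    (T : Finset (Pl K)) (hT : ∀ v ∈ T, v ∉ D.S0)
    (hur : ∀ v, v ∉ D.S0 → v ∉ T → ρ (L.t v) = 1 ∧ ρ' (L.t v) = 1)
    {lam : Pl K → ZMod p} (hlam : IsRec p ζ lam) :
    ∑ v ∈ T, lam v * iv e (ρ (Fr.F v)) (ρ (L.t v)) =
      ∑ v ∈ T, lam v * iv e (ρ' (Fr.F v)) (ρ' (L.t v)) := by
  obtain ⟨E, hE, hE2⟩ := hρ
  obtain ⟨E', hE', hE2'⟩ := hρ'
  obtain ⟨g, hg⟩ : ∃ g : R × R → R × R → ZMod p,
      ∀ a b, g a b = e a.1 b.1 - e a.2 b.2 := ⟨_, fun _ _ => rfl⟩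
  have hgc : Coc p g := by
    refine ⟨fun a => ?_, fun a => ?_, fun a b d => ?_⟩
    · rw [hg]
      change e 1 a.1 - e 1 a.2 = 0
      rw [he.l1, he.l1, sub_zero]
    · rw [hg]
      change e a.1 1 - e a.2 1 = 0
      rw [he.r1, he.r1, sub_zero]
    · rw [hg, hg, hg, hg]
      simp only [Prod.fst_mul, Prod.snd_mul]
      linear_combination he.co a.1 b.1 d.1 - he.co a.2 b.2 d.2
  have hpb : ∀ σ τ, pb g (ρ.prod ρ') σ τ = e (ρ σ) (ρ τ) - e (ρ' σ) (ρ' τ) := by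
    intro σ τ
    unfold pb
    rw [hg]
    rfl
  have h1 := brg3K hk hp hp2 hζ hz Q Fr hgc (ρ := ρ.prod ρ')
    ⟨E ⊔ E', IntermediateField.finiteDimensional_sup _ _, fun u hu => by
      have h1 : ρ u = 1 := MonoidHom.mem_ker.1
        (hE2 (IntermediateField.fixingSubgroup_antitone le_sup_left hu))
      have h2 : ρ' u = 1 := MonoidHom.mem_ker.1
        (hE2' (IntermediateField.fixingSubgroup_antitone le_sup_right hu))
      rw [MonoidHom.mem_ker, MonoidHom.prod_apply, h1, h2]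
      rfl⟩
    (fun v hv => by
      obtain ⟨r, hr⟩ := hS v hv
      refine ⟨fun σ => -(e r (ρ σ) - e r⁻¹ r + e (r * ρ σ) r⁻¹), ⟨E, hE, fun σ u hu => ?_⟩,
        fun σ hσ τ hτ => ?_⟩
      · have h3 : ρ u = 1 := MonoidHom.mem_ker.1 (hE2 hu)
        simp only [map_mul, h3, mul_one]
      · rw [hpb, hr σ hσ, hr τ hτ]
        simp only [map_mul]
        linear_combination cj he r (ρ σ) (ρ τ))
    (fun v hv τ hτ => by
      rw [MonoidHom.prod_apply, Prod.pow_mk, (htm v hv τ hτ).1, (htm v hv τ hτ).2]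
      rfl) T hT
    (fun v hv hvT => by
      rw [MonoidHom.prod_apply, (hur v hv hvT).1, (hur v hv hvT).2]
      rfl) hlam
  have h2 : ∀ v, lam v * iv g ((ρ.prod ρ') (Fr.F v)) ((ρ.prod ρ') (L.t v)) =
      lam v * iv e (ρ (Fr.F v)) (ρ (L.t v)) - lam v * iv e (ρ' (Fr.F v)) (ρ' (L.t v)) := by
    intro v
    unfold iv
    rw [hg, hg]
    simp only [MonoidHom.prod_apply]
    ring
  rw [Finset.sum_congr rfl fun v _ => h2 v, Finset.sum_sub_distrib] at h1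
  exact sub_eq_zero.1 h1

end H24.RK
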