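import Pool.Agent.H24.RK.Rmg
import Pool.Agent.H19.A2.Df2
import Pool.Agent.H19.AB.Fi

/-!
# [H24 RK FNR] the relative functional

`rmk`: `Ψ` closed, with values in `ZMod (p^m)`, inertia of order `p^k`, a coboundary of finite level on the decomposition groups at `S0`: the sum of the tori is zero.
`exists_fnr`: `FnR` (H19/A2/Df2.lean) by divisibility of `ℝ/ℤ`.
-/

set_option autoImplicit false
set_option linter.dupNamespace false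

open scoped NumberField
open IsDedekindDomain
open scoped Classical

noncomputable section

namespace H24.RK

open H63.MA H38.BB H38.BG H57.PC H57.BRA H89.BRG H57.RQ Pool.Agent.H24.RM Pool.Agent.H19.NF
  Pool.Agent.H19.AB Pool.Agent.H19.A2

variable {K : Type} [Field K] [NumberField K] {Ω : Type} [Field Ω] [Algebra K Ω]
  [IsAlgClosure K Ω] {p : ℕ} {ζ : K}

/-- reciprocity for closed cochains with values in `ZMod (p^m)`, all primes -/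
theorem rmkn (hp : p.Prime) {N : ℕ} (hmm : H57.RQ.N.MM p (N + 1) K) (hp2 : MOne p K)
    (hζ : IsPrimitiveRoot ζ p) {z : K} (hz : IsPrimitiveRoot z (p ^ (N + 1))) (hzζ : z ^ p ^ N = ζ) {D : RD0 K p ζ}
    {L : LDs D Ω} (hL : NL (N + 1) z L) (Q : DP K Ω) (Fr : FR L) {m k : ℕ}
    (hkm : max k m + m ≤ N + 1) {Ψ : Gal(Ω/K) → Gal(Ω/K) → ZMod (p ^ m)} (h1 : LfK k L Ψ)
    (h2 : ∀ v ∈ D.S0, ∃ η : Gal(Ω/K) → ZMod (p ^ m), Lev η ∧ ∀ σ ∈ dec (K := K) (Q.P v),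
      ∀ τ ∈ dec (K := K) (Q.P v), Ψ σ τ = d1 η σ τ)
    (h3 : ∀ σ τ υ, d2 Ψ σ τ υ = 0) : TS1 L Fr Ψ = 0 := by
  haveI : NeZero (p ^ m) := ⟨(pow_pos hp.pos _).ne'⟩
  obtain ⟨R, i1, i2, ρ, ψ, ht, hρ, hl, hr, hΨ⟩ := h1
  set C : Gal(Ω/K) → Gal(Ω/K) → ℤ := fun σ τ => ((Ψ σ τ).val : ℤ) with hCdef
  have hCk : ∀ σ τ, ((C σ τ : ℤ) : ZMod (p ^ m)) = Ψ σ τ := fun σ τ => by
    show ((((Ψ σ τ).val : ℕ) : ℤ) : ZMod (p ^ m)) = Ψ σ τ
    rw [Int.cast_natCast, ZMod.natCast_zmod_val]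
  have hC0 : ∀ σ τ, Ψ σ τ = 0 → C σ τ = 0 := fun σ τ h => by
    show ((Ψ σ τ).val : ℤ) = 0
    rw [h, ZMod.val_zero, Nat.cast_zero]
  have hpn : ((p ^ m : ℕ) : ℤ) = (p : ℤ) ^ m := by push_cast; rfl
  have hC : IZ ((p : ℤ) ^ m) C := by
    refine ⟨fun σ => hC0 _ _ (by rw [hΨ, map_one, hl]), fun σ => hC0 _ _ (by rw [hΨ, map_one, hr]),
      fun σ τ υ => ?_⟩
    rw [← hpn]
    apply (ZMod.intCast_zmod_eq_zero_iff_dvd _ (p ^ m)).1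
    rw [Int.cast_sub, Int.cast_add, Int.cast_sub, hCk, hCk, hCk, hCk]
    exact h3 σ τ υ
  have hfin := ram_finite hp D L ρ hρ
  have hz0 : ∀ v, v ∉ hfin.toFinset → Ψ (L.t v) (Fr.F v) = 0 ∧ Ψ (Fr.F v) (L.t v) = 0 := by
    intro v hv
    have h4 : ρ (L.t v) = 1 := by
      by_cases hS : v ∈ D.S0
      · have h5 : L.t v = 1 := by
          unfold LDs.t
          rw [dif_neg (not_not.2 hS)]
        rw [h5, map_one]
      · by_contra h5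
        exact hv ((Set.Finite.mem_toFinset hfin).2 ⟨hS, h5⟩)
    rw [hΨ, hΨ, h4]
    exact ⟨hl _, hr _⟩
  have h4 := rmgn hp hmm hp2 hζ hz hzζ hL Q Fr m (max k m) (le_max_right k m) hkm R ρ hρ C hC
    (fun σ σ' τ τ' h h' => by
      show ((Ψ σ τ).val : ℤ) = ((Ψ σ' τ').val : ℤ)
      rw [hΨ, hΨ, h, h'])
    (fun v hv => by
      obtain ⟨η, hη, h5⟩ := h2 v hv
      refine ⟨fun σ => ((η σ).val : ℤ), ?_, fun σ hσ τ hτ => ?_⟩
      · obtain ⟨E, hE, h⟩ := hη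
        exact ⟨E, hE, fun σ u hu => congrArg (fun x : ZMod (p ^ m) => ((x.val : ℕ) : ℤ)) (h σ u hu)⟩
      · rw [← hpn]
        apply (ZMod.intCast_zmod_eq_zero_iff_dvd _ (p ^ m)).1
        rw [Int.cast_sub, hCk, h5 σ hσ τ hτ]
        unfold dd d1
        push_cast
        rw [ZMod.natCast_zmod_val, ZMod.natCast_zmod_val, ZMod.natCast_zmod_val]
        ring)
    (fun v hv τ hτ => by
      obtain ⟨j, hj⟩ := pow_dvd_pow p (le_max_left k m)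
      rw [hj, pow_mul, ht v hv τ hτ, one_pow]) hfin.toFinset
    (fun v hv => ((Set.Finite.mem_toFinset hfin).1 hv).1)
    (fun v hv hvT => by
      by_contra h5
      exact hvT ((Set.Finite.mem_toFinset hfin).2 ⟨hv, h5⟩))
  have h5 : TS1 L Fr Ψ = ∑ v ∈ hfin.toFinset, br Ψ (L.t v) (Fr.F v) := by
    unfold TS1
    refine finsum_eq_sum_of_support_subset _ fun v hv => ?_
    by_contra hT
    refine hv ?_
    show br Ψ (L.t v) (Fr.F v) = 0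
    unfold br
    have h6 := hz0 v fun h' => hT (Finset.mem_coe.2 h')
    rw [h6.1, h6.2, sub_zero]
  rw [← hpn] at h4
  have h6 := (ZMod.intCast_zmod_eq_zero_iff_dvd _ (p ^ m)).2 h4
  rw [h5, ← neg_eq_zero, ← h6, Int.cast_sum, ← Finset.sum_neg_distrib]
  refine Finset.sum_congr rfl fun v _ => ?_
  rw [Int.cast_sub, hCk, hCk]
  unfold br
  ring

theorem lfk_sub {k : ℕ} {D : RD0 K p ζ} {L : LDs D Ω} {M : Type} [AddCommGroup M]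
    {Ψ Ψ' : Gal(Ω/K) → Gal(Ω/K) → M} (h : LfK k L Ψ) (h' : LfK k L Ψ') :
    LfK k L (fun σ τ => Ψ σ τ - Ψ' σ τ) := by
  obtain ⟨R, i1, i2, ρ, ψ, ht, hρ, hl, hr, hΨ⟩ := h
  obtain ⟨R', i1', i2', ρ', ψ', ht', hρ', hl', hr', hΨ'⟩ := h'
  refine ⟨R × R', inferInstance, inferInstance, ρ.prod ρ', fun x y => ψ x.1 y.1 - ψ' x.2 y.2,
    fun v hv τ hτ => Prod.ext (ht v hv τ hτ) (ht' v hv τ hτ), ?_, fun r => ?_, fun r => ?_,
    fun σ τ => ?_⟩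
  · obtain ⟨E, hE, hE2⟩ := hρ
    obtain ⟨E', hE', hE2'⟩ := hρ'
    refine ⟨E ⊔ E', IntermediateField.finiteDimensional_sup _ _, fun u hu => ?_⟩
    have h1 : ρ u = 1 := MonoidHom.mem_ker.1
      (hE2 (IntermediateField.fixingSubgroup_antitone le_sup_left hu))
    have h2 : ρ' u = 1 := MonoidHom.mem_ker.1
      (hE2' (IntermediateField.fixingSubgroup_antitone le_sup_right hu))
    rw [MonoidHom.mem_ker, MonoidHom.prod_apply, h1, h2]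
    rfl
  · show ψ 1 r.1 - ψ' 1 r.2 = 0
    rw [hl, hl', sub_zero]
  · show ψ r.1 1 - ψ' r.2 1 = 0
    rw [hr, hr', sub_zero]
  · show Ψ σ τ - Ψ' σ τ = ψ (ρ σ) (ρ τ) - ψ' (ρ' σ) (ρ' τ)
    rw [hΨ, hΨ']

omit [IsAlgClosure K Ω] in
theorem lfk_zero {k : ℕ} {D : RD0 K p ζ} {L : LDs D Ω} {M : Type} [AddCommGroup M] :
    LfK k L (fun _ _ => (0 : M)) := by
  refine ⟨Unit, inferInstance, inferInstance, 1, fun _ _ => 0, fun v hv τ hτ => rfl, ?_,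
    fun _ => rfl, fun _ => rfl, fun _ _ => rfl⟩
  exact ⟨⊥, inferInstance, fun u _ => MonoidHom.mem_ker.2 rfl⟩

theorem lfk_neg {k : ℕ} {D : RD0 K p ζ} {L : LDs D Ω} {M : Type} [AddCommGroup M]
    {Ψ : Gal(Ω/K) → Gal(Ω/K) → M} (h : LfK k L Ψ) : LfK k L (-Ψ) := by
  have h1 := lfk_sub (lfk_zero (L := L) (M := M)) h
  have h2 : (fun σ τ => (0 : M) - Ψ σ τ) = -Ψ := by
    funext σ τ
    exact zero_sub _
  rwa [h2] at h1

theorem lfk_add {k : ℕ} {D : RD0 K p ζ} {L : LDs D Ω} {M : Type} [AddCommGroup M]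
    {Ψ Ψ' : Gal(Ω/K) → Gal(Ω/K) → M} (h : LfK k L Ψ) (h' : LfK k L Ψ') : LfK k L (Ψ + Ψ') := by
  have h1 := lfk_sub h (lfk_neg h')
  have h2 : (fun σ τ => Ψ σ τ - (-Ψ') σ τ) = Ψ + Ψ' := by
    funext σ τ
    exact sub_neg_eq_add _ _
  rwa [h2] at h1

/-- finite support -/
theorem ts1_fin (hp : p.Prime) {k : ℕ} {D : RD0 K p ζ} (L : LDs D Ω) (Fr : FR L) {M : Type}
    [AddCommGroup M] {Ψ : Gal(Ω/K) → Gal(Ω/K) → M} (h : LfK k L Ψ) :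
    {v | br Ψ (L.t v) (Fr.F v) ≠ 0}.Finite := by
  obtain ⟨R, i1, i2, ρ, ψ, ht, hρ, hl, hr, hΨ⟩ := h
  refine (ram_finite hp D L ρ hρ).subset fun v hv => ?_
  have hρt : ρ (L.t v) ≠ 1 := by
    intro h4
    apply hv
    unfold br
    rw [hΨ, hΨ, h4, hl, hr, sub_zero]
  refine ⟨fun hS => hρt ?_, hρt⟩
  have h5 : L.t v = 1 := by
    unfold LDs.t
    rw [dif_neg (not_not.2 hS)]
  rw [h5, map_one]

theorem ts1_add (hp : p.Prime) {k : ℕ} {D : RD0 K p ζ} (L : LDs D Ω) (Fr : FR L) {M : Type}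
    [AddCommGroup M] {Ψ Ψ' : Gal(Ω/K) → Gal(Ω/K) → M} (h : LfK k L Ψ) (h' : LfK k L Ψ') :
    TS1 L Fr (Ψ + Ψ') = TS1 L Fr Ψ + TS1 L Fr Ψ' := by
  unfold TS1
  rw [← finsum_add_distrib]
  · refine finsum_congr fun v => ?_
    show (Ψ (L.t v) (Fr.F v) + Ψ' (L.t v) (Fr.F v)) - (Ψ (Fr.F v) (L.t v) + Ψ' (Fr.F v) (L.t v)) =
      (Ψ (L.t v) (Fr.F v) - Ψ (Fr.F v) (L.t v)) + (Ψ' (L.t v) (Fr.F v) - Ψ' (Fr.F v) (L.t v))
    abel
  · exact ts1_fin hp L Fr h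
  · exact ts1_fin hp L Fr h'

/-- extension of a homomorphism by divisibility -/
theorem exists_ext {S X Y : Type} [AddCommGroup S] [AddCommGroup X] [AddCommGroup Y]
    [DivisibleBy Y ℤ] (d : S →+ X) (f : S →+ Y) (h : d.ker ≤ f.ker) :
    ∃ I : X →+ Y, ∀ s, I (d s) = f s := by
  let g : d.range →+ Y := (QuotientAddGroup.lift d.ker f h).comp
    (QuotientAddGroup.quotientKerEquivRange d).symm.toAddMonoidHom
  obtain ⟨I, hI⟩ := (Module.Baer.of_divisible Y).extension_property_addMonoidHom d.range.subtype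
    (AddSubgroup.subtype_injective _) g
  refine ⟨I, fun s => ?_⟩
  have h1 : I (d s) = g ⟨d s, ⟨s, rfl⟩⟩ := by
    rw [← hI]
    rfl
  have h2 : (QuotientAddGroup.quotientKerEquivRange d).symm ⟨d s, ⟨s, rfl⟩⟩ = (s : S ⧸ d.ker) := by
    rw [AddEquiv.symm_apply_eq]
    rfl
  have h3 : g ⟨d s, ⟨s, rfl⟩⟩ = f s := by
    show QuotientAddGroup.lift d.ker f h ((QuotientAddGroup.quotientKerEquivRange d).symm
      ⟨d s, ⟨s, rfl⟩⟩) = f s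
    rw [h2]
    rfl
  rw [h1, h3]

/-- the relative functional, all primes -/
theorem exists_fnrn (hp : p.Prime) {N : ℕ} (hmm : H57.RQ.N.MM p (N + 1) K) (hp2 : MOne p K)
    (hζ : IsPrimitiveRoot ζ p) {z : K} (hz : IsPrimitiveRoot z (p ^ (N + 1))) (hzζ : z ^ p ^ N = ζ) {D : RD0 K p ζ}
    {L : LDs D Ω} (hL : NL (N + 1) z L) (Q : DP K Ω) (Fr : FR L) {m k : ℕ} [NeZero (p ^ m)]
    (hkm : max k m + m ≤ N + 1) :
    ∃ I : ((Gal(Ω/K) → Gal(Ω/K) → Gal(Ω/K) → ZMod (p ^ m)) ×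
      (Pl K → Gal(Ω/K) → Gal(Ω/K) → ZMod (p ^ m))) →+ AddCircle (1 : ℝ),
      FnR p k m D L Q Fr I := by
  let S : AddSubgroup ((Gal(Ω/K) → Gal(Ω/K) → ZMod (p ^ m)) × (Pl K → Gal(Ω/K) → ZMod (p ^ m))) :=
    { carrier := {x | LfK k L x.1 ∧ ∀ v, Lev (x.2 v)}
      zero_mem' := ⟨lfk_zero, fun v => gtriv_const 0⟩
      neg_mem' := fun {x} h => ⟨lfk_neg h.1, fun v => by
        obtain ⟨E, hE, h1⟩ := h.2 v
        exact ⟨E, hE, fun σ u hu => congrArg (fun y => -y) (h1 σ u hu)⟩⟩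
      add_mem' := fun {x y} h h' => ⟨lfk_add h.1 h'.1, fun v =>
        gtriv_lev (h.2 v) (h'.2 v) (fun a b => a + b)⟩ }
  let d : S →+ ((Gal(Ω/K) → Gal(Ω/K) → Gal(Ω/K) → ZMod (p ^ m)) ×
      (Pl K → Gal(Ω/K) → Gal(Ω/K) → ZMod (p ^ m))) := AddMonoidHom.mk'
    (fun x => (d2 x.1.1, rs D Q fun v σ τ => x.1.1 σ τ - d1 (x.1.2 v) σ τ)) fun x y => by
      refine Prod.ext ?_ ?_
      · funext σ τ υ
        show d2 (x.1.1 + y.1.1) σ τ υ = d2 x.1.1 σ τ υ + d2 y.1.1 σ τ υ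
        unfold d2
        simp only [Pi.add_apply]
        ring
      · funext v σ τ
        show rs D Q (fun v σ τ => (x.1.1 + y.1.1) σ τ - d1 ((x.1.2 + y.1.2) v) σ τ) v σ τ =
          rs D Q (fun v σ τ => x.1.1 σ τ - d1 (x.1.2 v) σ τ) v σ τ +
            rs D Q (fun v σ τ => y.1.1 σ τ - d1 (y.1.2 v) σ τ) v σ τ
        unfold rs
        split_ifs
        · unfold d1
          simp only [Pi.add_apply]
          ring
        · rw [add_zero]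
  let F : S →+ AddCircle (1 : ℝ) := AddMonoidHom.mk'
    (fun x => ZMod.toAddCircle (TS1 L Fr x.1.1)) fun x y => by
      show ZMod.toAddCircle (TS1 L Fr (x.1.1 + y.1.1)) = _
      rw [ts1_add hp L Fr x.2.1 y.2.1, map_add]
  obtain ⟨I, hI⟩ := exists_ext d F fun x hx => by
    rw [AddMonoidHom.mem_ker] at hx ⊢
    have hx1 : d2 x.1.1 = 0 := congrArg Prod.fst hx
    have hx2 : (rs D Q fun v σ τ => x.1.1 σ τ - d1 (x.1.2 v) σ τ) = 0 := congrArg Prod.snd hx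
    show ZMod.toAddCircle (TS1 L Fr x.1.1) = 0
    rw [rmkn hp hmm hp2 hζ hz hzζ hL Q Fr hkm x.2.1 (fun v hv => ⟨x.1.2 v, x.2.2 v,
      fun σ hσ τ hτ => ?_⟩) (fun σ τ υ => by rw [hx1]; rfl), map_zero]
    have h1 := congrFun (congrFun (congrFun hx2 v) σ) τ
    unfold rs at h1
    rw [if_pos ⟨hv, hσ, hτ⟩] at h1
    exact sub_eq_zero.1 h1
  exact ⟨I, fun Ψ η h h' => hI ⟨(Ψ, η), h, h'⟩⟩

/-- reciprocity for closed cochains with values in `ZMod (p^m)` -/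
theorem rmk (hp : p.Prime) (hpo : p ≠ 2) (hp2 : MOne p K) (hζ : IsPrimitiveRoot ζ p) {N : ℕ}
    {z : K} (hz : IsPrimitiveRoot z (p ^ (N + 1))) (hzζ : z ^ p ^ N = ζ) {D : RD0 K p ζ}
    {L : LDs D Ω} (hL : NL (N + 1) z L) (Q : DP K Ω) (Fr : FR L) {m k : ℕ}
    (hkm : max k m + m ≤ N + 1) {Ψ : Gal(Ω/K) → Gal(Ω/K) → ZMod (p ^ m)} (h1 : LfK k L Ψ)
    (h2 : ∀ v ∈ D.S0, ∃ η : Gal(Ω/K) → ZMod (p ^ m), Lev η ∧ ∀ σ ∈ dec (K := K) (Q.P v),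
      ∀ τ ∈ dec (K := K) (Q.P v), Ψ σ τ = d1 η σ τ)
    (h3 : ∀ σ τ υ, d2 Ψ σ τ υ = 0) : TS1 L Fr Ψ = 0 :=
  rmkn hp (H57.RQ.N.MM.odd hp hpo _ _) hp2 hζ hz hzζ hL Q Fr hkm h1 h2 h3

/-- the relative functional -/
theorem exists_fnr (hp : p.Prime) (hpo : p ≠ 2) (hp2 : MOne p K) (hζ : IsPrimitiveRoot ζ p)
    {N : ℕ} {z : K} (hz : IsPrimitiveRoot z (p ^ (N + 1))) (hzζ : z ^ p ^ N = ζ) {D : RD0 K p ζ}
    {L : LDs D Ω} (hL : NL (N + 1) z L) (Q : DP K Ω) (Fr : FR L) {m k : ℕ} [NeZero (p ^ m)]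
    (hkm : max k m + m ≤ N + 1) :
    ∃ I : ((Gal(Ω/K) → Gal(Ω/K) → Gal(Ω/K) → ZMod (p ^ m)) ×
      (Pl K → Gal(Ω/K) → Gal(Ω/K) → ZMod (p ^ m))) →+ AddCircle (1 : ℝ),
      FnR p k m D L Q Fr I :=
  exists_fnrn hp (H57.RQ.N.MM.odd hp hpo _ _) hp2 hζ hz hzζ hL Q Fr hkm

end H24.RK
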