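import Pool.Agent.H57.BRA.Loc
import Pool.Agent.H48.MF.Ing

/-!
# [H24 RK LOC] the local theory for inertia of order `p ^ k`

`Zn p n K`: `K` contains the roots of unity of order `p ^ n`. `TmK p k ρ P`: `ρ τ ^ (p ^ k) = 1` on the inertia group of `P`; `IsFrK n L F`, `LTK k e ρ P` as `IsFr`, `LT`
(H57/BRA/Def.lean). `comk` as `com2`, `locK_mix`, `locK_one` as `loc_mix`, `loc_one`.
-/

set_option autoImplicit false

open scoped NumberField Pointwise
open IsDedekindDomain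

noncomputable section

namespace H24.RK

open H63.MA H38.BB H38.BG H57.PC H57.BRA

/-- `K` contains the roots of unity of order `p ^ n` -/
def Zn (p n : ℕ) (K : Type) [Field K] : Prop := ∃ z : K, IsPrimitiveRoot z (p ^ n)

theorem Zn.mono {p n m : ℕ} (hp : 0 < p) {K : Type} [Field K] (h : Zn p n K) (hm : m ≤ n) :
    Zn p m K := by
  obtain ⟨z, hz⟩ := h
  obtain ⟨j, rfl⟩ := Nat.exists_eq_add_of_le hm
  exact ⟨z ^ (p ^ j), hz.pow (pow_pos hp _) (by rw [pow_add, mul_comm])⟩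

theorem Zn.map {p n : ℕ} {K : Type} [Field K] (h : Zn p n K) (L : Type) [Field L] [Algebra K L] :
    Zn p n L := by
  obtain ⟨z, hz⟩ := h
  exact ⟨algebraMap K L z, hz.map_of_injective (algebraMap K L).injective⟩

section defs

variable {K : Type} [Field K] [NumberField K] {Ω : Type} [Field Ω] [Algebra K Ω] {p : ℕ}

/-- the inertia group of `P` has image of exponent `p ^ k` -/
def TmK (p k : ℕ) {R : Type} [Group R] (ρ : Gal(Ω/K) →* R) (P : Ideal (𝓞 Ω)) : Prop :=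
  ∀ τ ∈ P.inertia Gal(Ω/K), ρ τ ^ (p ^ k) = 1

/-- Frobenius elements for inertia of order `p ^ n` -/
def IsFrK (n : ℕ) {ζ : K} {v : Pl K} {π : Kˣ} (L : LD p ζ Ω v π) (F : Gal(Ω/K)) : Prop :=
  (∀ x : 𝓞 Ω, F • x - x ^ nm v ∈ L.P) ∧ (∀ a : Kˣ, kk p ζ a F = lgv p ζ v π a) ∧
    ∀ (G : Type) [Group G] [Finite G] (φ : Gal(Ω/K) →* G), H38.ML.FT φ →
      (∀ τ ∈ L.P.inertia Gal(Ω/K), φ τ ^ (p ^ n) = 1) → φ F * φ L.t = φ L.t * φ F

/-- local triviality at `P`, inertia of order `p ^ k` -/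
def LTK (k : ℕ) {R : Type} [Group R] (e : R → R → ZMod p) (ρ : Gal(Ω/K) →* R)
    (P : Ideal (𝓞 Ω)) : Prop :=
  TmK p k ρ P ∧ ∀ F, FrP P F → ∀ τ ∈ P.inertia Gal(Ω/K),
    ρ F * ρ τ = ρ τ * ρ F ∧ iv e (ρ F) (ρ τ) = 0

end defs

variable {K : Type} [Field K] [NumberField K] {Ω : Type} [Field Ω] [Algebra K Ω] [IsAlgClosure K Ω]
  {p : ℕ} {ζ : K}

theorem comk {n : ℕ} (hp : p.Prime) (hζ : IsPrimitiveRoot ζ p) (hz : Zn p (n + 1) K) {v : Pl K}
    (hv : ¬ Above p v) {π : Kˣ} (hπ : ord v π = 1) (L : LD p ζ Ω v π) {F : Gal(Ω/K)}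
    (hF : ∀ x : 𝓞 Ω, F • x - x ^ nm v ∈ L.P) {G : Type} [Group G] [Finite G]
    (φ : Gal(Ω/K) →* G) (hφ : H38.ML.FT φ)
    (he : ∀ τ ∈ L.P.inertia Gal(Ω/K), φ τ ^ (p ^ (n + 1)) = 1) : φ F * φ L.t = φ L.t * φ F := by
  obtain ⟨z, hz⟩ := hz
  have hp0 : NeZero p := ⟨hp.ne_zero⟩
  have hpf : Fact p.Prime := ⟨hp⟩
  have hN0 : NeZero (p ^ (n + 1)) := ⟨pow_ne_zero _ hp.ne_zero⟩
  have hcl : IsAlgClosed Ω := IsAlgClosure.isAlgClosed K
  obtain ⟨B, hB⟩ := IsAlgClosed.exists_pow_nat_eq L.w (pow_pos hp.pos n)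
  have hw0 : L.w ≠ 0 := gkum_ne hp π L.w L.hw
  have hB0 : B ≠ 0 := by
    intro h
    rw [h, zero_pow (pow_pos hp.pos n).ne'] at hB
    exact hw0 hB.symm
  have hB2 : B ^ (p ^ (n + 1)) = algebraMap K Ω (π : K) := by
    rw [pow_succ, pow_mul, hB, L.hw]
  obtain ⟨χ, hχ1, hχ2⟩ := com2_chi hz hB0 hB2
  -- the order of the value at `t`
  have hχt : (χ L.t) ^ (p ^ n) ≠ 1 := by
    intro h
    have h1 : L.t (B ^ (p ^ n)) = B ^ (p ^ n) := by
      rw [map_pow, hχ2 L.t, mul_pow]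
      have h2 : (((χ L.t : rootsOfUnity (p ^ (n + 1)) Ω) : Ωˣ) : Ω) ^ (p ^ n) = 1 := by
        have h3 := congrArg (fun x : rootsOfUnity (p ^ (n + 1)) Ω => ((x : Ωˣ) : Ω)) h
        simpa using h3
      rw [h2, one_mul]
    rw [hB, L.act] at h1
    have h4 : algebraMap K Ω ζ = 1 := mul_right_cancel₀ hw0 (by rw [h1, one_mul])
    have h5 : ζ = 1 := (algebraMap K Ω).injective (by rw [h4, map_one])
    exact hζ.ne_one hp.one_lt h5
  have hall : ∀ x : rootsOfUnity (p ^ (n + 1)) Ω, x ^ (p ^ (n + 1)) = 1 := by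
    intro x
    apply Subtype.ext
    exact x.2
  have hordχ : orderOf (χ L.t) = p ^ (n + 1) :=
    orderOf_eq_prime_pow (n := n) hχt (hall _)
  have hfin : Finite (rootsOfUnity (p ^ (n + 1)) Ω) := inferInstance
  set ψ : Gal(Ω/K) →* rootsOfUnity (p ^ (n + 1)) Ω × G := χ.prod φ with hψ
  have hft : H38.ML.FT ψ := gtame_ft_prod _ _ hχ1 hφ
  have hpow : ∀ σ ∈ L.P.inertia Gal(Ω/K), ψ σ ^ (p ^ (n + 1)) = 1 := by
    intro σ hσ
    have h1 : ψ σ = (χ σ, φ σ) := rfl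
    rw [h1, Prod.pow_mk, hall, he σ hσ]
    rfl
  have hpg : IsPGroup p ((L.P.inertia Gal(Ω/K)).map ψ) := by
    rintro ⟨x, hx⟩
    obtain ⟨σ, hσ, rfl⟩ := Subgroup.mem_map.1 hx
    exact ⟨n + 1, Subtype.ext (hpow σ hσ)⟩
  obtain ⟨n1, hn⟩ := IsPGroup.iff_card.1 hpg
  have hc : ((Nat.card ((L.P.inertia Gal(Ω/K)).map ψ) : ℕ) : 𝓞 K) ∉ v.asIdeal := by
    rw [hn, Nat.cast_pow]
    intro h
    exact hv (v.isPrime.mem_of_pow_mem n1 h)
  obtain ⟨τ₀, hτ₀, hcyc⟩ := cyc v L.P L.prime L.under ψ hft hc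
  have hordψ : orderOf (ψ L.t) = p ^ (n + 1) := by
    apply Nat.dvd_antisymm (orderOf_dvd_of_pow_eq_one (hpow L.t L.ht))
    refine hordχ.symm.dvd.trans (orderOf_dvd_of_pow_eq_one ?_)
    have h1 : ψ L.t ^ orderOf (ψ L.t) = 1 := pow_orderOf_eq_one _
    exact congrArg Prod.fst h1
  have hle : Subgroup.zpowers (ψ L.t) ≤ Subgroup.zpowers (ψ τ₀) :=
    (Subgroup.zpowers_le).2 (hcyc L.t L.ht)
  have heq : Subgroup.zpowers (ψ L.t) = Subgroup.zpowers (ψ τ₀) := by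
    apply Subgroup.eq_of_le_of_card_ge hle
    rw [Nat.card_zpowers, Nat.card_zpowers, hordψ]
    exact Nat.le_of_dvd (pow_pos hp.pos (n + 1)) (orderOf_dvd_of_pow_eq_one (hpow τ₀ hτ₀))
  -- conjugation by `F`
  have hnm : 0 < nm v := lt_trans Nat.zero_lt_one (one_lt_nm v)
  have hFP : ∀ y ∈ L.P, F • y ∈ L.P := by
    intro y hy
    have h1 := L.P.add_mem (hF y) (L.P.pow_mem_of_mem hy (nm v) hnm)
    rwa [sub_add_cancel] at h1
  have hconj : F * L.t * F⁻¹ ∈ L.P.inertia Gal(Ω/K) := by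
    intro x
    have h1 : (F * L.t * F⁻¹) • x - x = F • (L.t • (F⁻¹ • x) - F⁻¹ • x) := by
      rw [smul_sub, mul_smul, mul_smul, smul_inv_smul]
    rw [h1]
    exact hFP _ (L.ht (F⁻¹ • x))
  have hz1 := hcyc _ hconj
  rw [← heq] at hz1
  obtain ⟨i, hi⟩ := Subgroup.mem_zpowers_iff.1 hz1
  have hi1 : χ L.t ^ i = χ (F * L.t * F⁻¹) := congrArg Prod.fst hi
  have hi2 : φ L.t ^ i = φ (F * L.t * F⁻¹) := congrArg Prod.snd hi
  have hi3 : χ L.t ^ i = χ L.t := by
    rw [hi1, map_mul, map_mul, map_inv, mul_comm (χ F), mul_inv_cancel_right]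
  have hi4 : χ L.t ^ (i - 1) = 1 := by
    rw [zpow_sub, hi3, zpow_one, mul_inv_cancel]
  have hi5 : ((p ^ (n + 1) : ℕ) : ℤ) ∣ i - 1 := by
    have h1 := orderOf_dvd_iff_zpow_eq_one.2 hi4
    exact (congrArg (Nat.cast : ℕ → ℤ) hordχ).symm.dvd.trans h1
  obtain ⟨m, hm⟩ := hi5
  have hi6 : φ L.t ^ (i - 1) = 1 := by
    rw [hm, zpow_mul, zpow_natCast, he L.t L.ht, one_zpow]
  have hi7 : φ L.t ^ i = φ L.t := by
    have h1 : i = (i - 1) + 1 := by ring
    rw [h1, zpow_add, hi6, one_mul, zpow_one]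
  rw [hi7, map_mul, map_mul, map_inv, eq_mul_inv_iff_mul_eq] at hi2
  exact hi2.symm

theorem frob_univK {n : ℕ} (hp : p.Prime) (hζ : IsPrimitiveRoot ζ p) (hz : Zn p (n + 1) K)
    {v : Pl K} (hv : ¬ Above p v) {π : Kˣ} (hπ : ord v π = 1) (L : LD p ζ Ω v π) :
    ∃ F : Gal(Ω/K), F L.w = L.w ∧ IsFrK (n + 1) L F := by
  obtain ⟨F, h1, h2, h3, -⟩ := frob_univ1 hp hζ hv hπ L
  exact ⟨F, h1, h2, h3, fun G _ _ φ hφ he => comk hp hζ hz hv hπ L h2 φ hφ he⟩

theorem isFrK_of {n : ℕ} (hp : p.Prime) (hζ : IsPrimitiveRoot ζ p) (hz : Zn p (n + 1) K)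
    {D : RD0 K p ζ} {L : LDs D Ω} (Fr : FR L) (v : Pl K) (hv : v ∉ D.S0) :
    IsFrK (n + 1) (L.ld v hv) (Fr.F v) :=
  ⟨Fr.fr v hv, fun a => Fr.kf v hv a, fun _ _ _ φ hφ he =>
    comk hp hζ hz (fun h => hv (D.above v h)) (D.pi_self v hv) (L.ld v hv) (Fr.fr v hv) φ hφ he⟩

/-- the group of the coordinates -/
private abbrev LcR (p : ℕ) (R ι : Type) : Type :=
  R × (Multiplicative (ι → ZMod p) × Multiplicative (ι → ZMod p))

/-- the cocycle -/
private def lcE {R : Type} (e : R → R → ZMod p) (ι : Type) [Fintype ι] (a b : LcR p R ι) : ZMod p :=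
  e a.1 b.1 + ∑ j, Multiplicative.toAdd a.2.1 j * Multiplicative.toAdd b.2.2 j

private theorem lc_coc {R : Type} [Group R] {e : R → R → ZMod p} (he : Coc p e) (ι : Type)
    [Fintype ι] : Coc p (lcE e ι) where
  l1 a := by
    unfold lcE
    rw [Prod.fst_one, he.l1, zero_add]
    refine Finset.sum_eq_zero fun j _ => ?_
    change (0 : ZMod p) * _ = 0
    rw [zero_mul]
  r1 a := by
    unfold lcE
    rw [Prod.fst_one, he.r1, zero_add]
    refine Finset.sum_eq_zero fun j _ => ?_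
    change _ * (0 : ZMod p) = 0
    rw [mul_zero]
  co a b c := by
    unfold lcE
    have h1 := he.co a.1 b.1 c.1
    have h2 : ∑ j, Multiplicative.toAdd a.2.1 j * Multiplicative.toAdd (b * c).2.2 j =
        ∑ j, Multiplicative.toAdd a.2.1 j * Multiplicative.toAdd b.2.2 j +
          ∑ j, Multiplicative.toAdd a.2.1 j * Multiplicative.toAdd c.2.2 j := by
      rw [← Finset.sum_add_distrib]
      refine Finset.sum_congr rfl fun j _ => ?_
      change _ * (Multiplicative.toAdd b.2.2 j + Multiplicative.toAdd c.2.2 j) = _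
      ring
    have h3 : ∑ j, Multiplicative.toAdd (a * b).2.1 j * Multiplicative.toAdd c.2.2 j =
        ∑ j, Multiplicative.toAdd a.2.1 j * Multiplicative.toAdd c.2.2 j +
          ∑ j, Multiplicative.toAdd b.2.1 j * Multiplicative.toAdd c.2.2 j := by
      rw [← Finset.sum_add_distrib]
      refine Finset.sum_congr rfl fun j _ => ?_
      change (Multiplicative.toAdd a.2.1 j + Multiplicative.toAdd b.2.1 j) * _ = _
      ring
    rw [h2, h3]
    change _ + (e a.1 (b.1 * c.1) + _) = e (a.1 * b.1) c.1 + _ + _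
    linear_combination h1

private theorem lc_finite {R : Type} [Group R] [Finite R] {e : R → R → ZMod p} (he : Coc p e)
    (ι : Type) [Fintype ι] [NeZero p] : Finite (Xt (lcE e ι) (lc_coc he ι)) := by
  have h1 : Finite (Multiplicative (ι → ZMod p)) := inferInstanceAs (Finite (ι → ZMod p))
  let f : Xt (lcE e ι) (lc_coc he ι) → LcR p R ι × ZMod p := fun g => (g.r, g.z)
  apply Finite.of_injective f
  intro g h hgh
  exact Xt.ext (congrArg Prod.fst hgh) (congrArg Prod.snd hgh)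

/-- the homomorphism -/
private def lc_hom {R : Type} [Group R] {e : R → R → ZMod p} (he : Coc p e) (ρ : Gal(Ω/K) →* R)
    (ζ : K) {ι : Type} [Fintype ι] (A C : ι → Kˣ) (l : Gal(Ω/K) → ZMod p)
    (hl : ∀ σ τ, l (σ * τ) = l σ + l τ + (pb e ρ σ τ + ∑ j, cu p ζ (A j) (C j) σ τ)) :
    Gal(Ω/K) →* Xt (lcE e ι) (lc_coc he ι) :=
  MonoidHom.mk' (fun σ => ⟨(ρ σ, Multiplicative.ofAdd (fun j => kk p ζ (A j) σ),
    Multiplicative.ofAdd (fun j => kk p ζ (C j) σ)), l σ⟩) (by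
    intro σ τ
    rw [xt_mul]
    apply Xt.ext
    · apply Prod.ext
      · exact map_mul ρ σ τ
      · apply Prod.ext
        · apply Multiplicative.toAdd.injective
          funext j
          exact kk_mul _ _ _
        · apply Multiplicative.toAdd.injective
          funext j
          exact kk_mul _ _ _
    · exact hl σ τ)

private theorem lc_hom_ft (hp : p.Prime) (hζ : IsPrimitiveRoot ζ p) {R : Type} [Group R]
    {e : R → R → ZMod p} (he : Coc p e) {ρ : Gal(Ω/K) →* R} (hρ : H38.ML.FT ρ) {ι : Type}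
    [Fintype ι] (A C : ι → Kˣ) (l : Gal(Ω/K) → ZMod p)
    (hl : ∀ σ τ, l (σ * τ) = l σ + l τ + (pb e ρ σ τ + ∑ j, cu p ζ (A j) (C j) σ τ))
    (hL : Lev l) : H38.ML.FT (lc_hom he ρ ζ A C l hl) := by
  obtain ⟨E, hE, hE'⟩ := hL
  obtain ⟨E0, hE0, hE0'⟩ := hρ
  have hA := fun j => (kc_is (Ω := Ω) hp hζ (A j)).1
  have hC := fun j => (kc_is (Ω := Ω) hp hζ (C j)).1
  choose EA hEA hEA' using hA
  choose EC hEC hEC' using hC
  have hl1 : l 1 = 0 := by
    have h1 := hl 1 1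
    have h2 : ∑ j, cu p ζ (A j) (C j) (1 : Gal(Ω/K)) 1 = 0 := by
      refine Finset.sum_eq_zero fun j _ => ?_
      unfold cu
      rw [kk_one, zero_mul]
    have h3 : pb e ρ (1 : Gal(Ω/K)) 1 = 0 := by
      unfold pb
      rw [map_one, he.l1]
    rw [h2, h3, mul_one, add_zero, add_zero] at h1
    exact (left_eq_add.1 h1)
  refine ⟨(E ⊔ E0) ⊔ ((⨆ j, EA j) ⊔ (⨆ j, EC j)), ?_, ?_⟩
  · have h1 : FiniteDimensional K ↥(⨆ j, EA j) :=
      IntermediateField.finiteDimensional_iSup_of_finite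
    have h2 : FiniteDimensional K ↥(⨆ j, EC j) :=
      IntermediateField.finiteDimensional_iSup_of_finite
    have h3 : FiniteDimensional K ↥((⨆ j, EA j) ⊔ (⨆ j, EC j)) :=
      IntermediateField.finiteDimensional_sup _ _
    have h4 : FiniteDimensional K ↥(E ⊔ E0) := IntermediateField.finiteDimensional_sup _ _
    exact IntermediateField.finiteDimensional_sup _ _
  · intro u hu
    have hu1 : u ∈ E.fixingSubgroup :=
      IntermediateField.fixingSubgroup_antitone (le_sup_left.trans le_sup_left) hu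
    have hu0 : u ∈ E0.fixingSubgroup :=
      IntermediateField.fixingSubgroup_antitone (le_sup_right.trans le_sup_left) hu
    have huA : ∀ j, u ∈ (EA j).fixingSubgroup := fun j =>
      IntermediateField.fixingSubgroup_antitone
        ((le_iSup EA j).trans (le_sup_left.trans le_sup_right)) hu
    have huC : ∀ j, u ∈ (EC j).fixingSubgroup := fun j =>
      IntermediateField.fixingSubgroup_antitone
        ((le_iSup EC j).trans (le_sup_right.trans le_sup_right)) hu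
    rw [MonoidHom.mem_ker]
    apply Xt.ext
    · apply Prod.ext
      · exact hE0' hu0
      · apply Prod.ext
        · apply Multiplicative.toAdd.injective
          funext j
          have h1 := hEA' j (huA j)
          rw [MonoidHom.mem_ker] at h1
          change kk p ζ (A j) u = 0
          unfold kk
          rw [h1]
          rfl
        · apply Multiplicative.toAdd.injective
          funext j
          have h1 := hEC' j (huC j)
          rw [MonoidHom.mem_ker] at h1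
          change kk p ζ (C j) u = 0
          unfold kk
          rw [h1]
          rfl
    · change l u = 0
      have h1 := hE' 1 u hu1
      rw [one_mul] at h1
      rw [h1, hl1]

private theorem lc_exp {R : Type} [Group R] {e : R → R → ZMod p} (he : Coc p e) {ι : Type}
    [Fintype ι] {k : ℕ} (hk : 0 < k)
    (g : Xt (lcE e ι) (lc_coc he ι)) (h1 : g.r.1 ^ (p ^ k) = 1) : g ^ (p ^ (k + 1)) = 1 := by
  have h4 := pw_lift (lc_coc he ι) g.r g.z (p ^ k)
  have h5 : (⟨g.r, g.z⟩ : Xt (lcE e ι) (lc_coc he ι)) = g := rfl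
  rw [h5] at h4
  have hz : ∀ x : Multiplicative (ι → ZMod p), x ^ (p ^ k) = 1 := by
    intro x
    obtain ⟨j, rfl⟩ := Nat.exists_eq_succ_of_ne_zero hk.ne'
    rw [pow_succ' p, pow_mul]
    have hx : x ^ p = 1 := by
      apply Multiplicative.toAdd.injective
      funext j
      change (p • Multiplicative.toAdd x) j = 0
      rw [Pi.smul_apply, nsmul_eq_mul, CharP.cast_eq_zero, zero_mul]
    rw [hx, one_pow]
  have h6 : g.r ^ (p ^ k) = 1 := by
    apply Prod.ext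
    · exact h1
    · apply Prod.ext
      · exact hz _
      · exact hz _
  rw [pow_succ, pow_mul, h4, h6, pw_lift (lc_coc he ι)]
  apply Xt.ext
  · exact one_pow p
  · change (p : ZMod p) * _ + _ = 0
    rw [CharP.cast_eq_zero, zero_mul, zero_add]
    exact Finset.sum_eq_zero fun k _ => by rw [one_pow, (lc_coc he ι).l1]

private theorem lc_zero {k : ℕ} (hk : 0 < k) (hp : p.Prime) (hζ : IsPrimitiveRoot ζ p) {R : Type} [Group R]
    [Finite R] {e : R → R → ZMod p} (he : Coc p e) {ρ : Gal(Ω/K) →* R} (hρ : H38.ML.FT ρ)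
    {ι : Type} [Fintype ι] (A C : ι → Kˣ) {v : Pl K} (hv : ¬ Above p v) {π : Kˣ}
    (hπ : ord v π = 1) (L : LD p ζ Ω v π) {F : Gal(Ω/K)} (hF : IsFrK (k + 1) L F) (htm : TmK p k ρ L.P)
    (h : Tv (fun σ τ : Gal(Ω/K) => pb e ρ σ τ + ∑ j, cu p ζ (A j) (C j) σ τ)) :
    iv e (ρ F) (ρ L.t) + ∑ j, B p ζ v (A j) (C j) = 0 := by
  have hne : NeZero p := ⟨hp.ne_zero⟩
  obtain ⟨l, hL, hl⟩ := h
  have hfin := lc_finite he ι
  have hcomm := hF.2.2 (Xt (lcE e ι) (lc_coc he ι)) (lc_hom he ρ ζ A C l hl)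
    (lc_hom_ft hp hζ he hρ A C l hl hL) (by
      intro τ hτ
      exact lc_exp he hk _ (htm τ hτ))
  have h2 : l F + l L.t + (e (ρ F) (ρ L.t) + ∑ j, kk p ζ (A j) F * kk p ζ (C j) L.t) =
      l L.t + l F + (e (ρ L.t) (ρ F) + ∑ j, kk p ζ (A j) L.t * kk p ζ (C j) F) :=
    congrArg Xt.z hcomm
  have h4 : ∑ j, B p ζ v (A j) (C j) =
      ∑ j, kk p ζ (A j) F * kk p ζ (C j) L.t - ∑ j, kk p ζ (A j) L.t * kk p ζ (C j) F := by
    rw [← Finset.sum_sub_distrib]
    refine Finset.sum_congr rfl fun j _ => ?_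
    rw [b_eq hp hζ hv hπ, hF.2.1, hF.2.1, ld_kk_t hp hζ hv hπ L, ld_kk_t hp hζ hv hπ L]
  rw [h4]
  unfold iv
  linear_combination h2

theorem locK_mix {k : ℕ} (hk : 0 < k) (hp : p.Prime) (hζ : IsPrimitiveRoot ζ p) {R : Type} [Group R]
    [Finite R] {e : R → R → ZMod p} (he : Coc p e) {ρ : Gal(Ω/K) →* R} (hρ : H38.ML.FT ρ)
    {ι : Type} [Fintype ι] (A C : ι → Kˣ) {v : Pl K} (hv : ¬ Above p v) {π : Kˣ}
    (hπ : ord v π = 1) (L : LD p ζ Ω v π) {F : Gal(Ω/K)} (hF : IsFrK (k + 1) L F)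
    (htm : TmK p k ρ L.P)
    (h : Tv (fun σ τ : Gal(Ω/K) => pb e ρ σ τ + ∑ j, cu p ζ (A j) (C j) σ τ)) :
    iv e (ρ F) (ρ L.t) + ∑ j, B p ζ v (A j) (C j) = 0 := by
  exact lc_zero hk hp hζ he hρ A C hv hπ L hF htm h

/-- the case of one pair -/
theorem locK_one {k : ℕ} (hk : 0 < k) (hp : p.Prime) (hζ : IsPrimitiveRoot ζ p) {R : Type} [Group R]
    [Finite R] {e : R → R → ZMod p} (he : Coc p e) {ρ : Gal(Ω/K) →* R} (hρ : H38.ML.FT ρ)
    (a b : Kˣ) {v : Pl K} (hv : ¬ Above p v) {π : Kˣ}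
    (hπ : ord v π = 1) (L : LD p ζ Ω v π) {F : Gal(Ω/K)} (hF : IsFrK (k + 1) L F)
    (htm : TmK p k ρ L.P)
    (h : Tv (fun σ τ : Gal(Ω/K) => pb e ρ σ τ + cu p ζ a b σ τ)) :
    iv e (ρ F) (ρ L.t) + B p ζ v a b = 0 := by
  have h1 := locK_mix hk hp hζ he hρ (fun _ : Unit => a) (fun _ : Unit => b) hv hπ L hF htm
    (by simpa only [Finset.univ_unique, Finset.sum_singleton] using h)
  simpa only [Finset.univ_unique, Finset.sum_singleton] using h1

end H24.RK
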