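import Pool.Agent.H24.RK.Gst

/-!
# [H24 RK RMG] THEOREM RMG: reciprocity for 2-cocycles with values in `ℤ/p^m`, inertia of order `p^k`

Induction on `m` with `gst`.
-/

set_option autoImplicit false
set_option linter.dupNamespace false

open scoped NumberField
open IsDedekindDomain
open scoped Classical

noncomputable section

namespace H24.RK

open H63.MA H38.BB H38.BG H57.PC H57.BRA H89.BRG H57.RQ Pool.Agent.H24.RM

variable {K : Type} [Field K] [NumberField K] {Ω : Type} [Field Ω] [Algebra K Ω]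
  [IsAlgClosure K Ω] {p : ℕ} {ζ : K}

theorem mm_le {n N : ℕ} (h : n ≤ N) (hm : H57.RQ.N.MM p N K) : H57.RQ.N.MM p n K := by
  obtain ⟨j, rfl⟩ := Nat.exists_eq_add_of_le h
  induction j with
  | zero => exact hm
  | succ j ih => exact ih (by omega) (H57.RQ.N.MM.le hm)

/-- the integral form, all primes -/
theorem rmgn (hp : p.Prime) {N : ℕ} (hmm : H57.RQ.N.MM p (N + 1) K) (hp2 : MOne p K)
    (hζ : IsPrimitiveRoot ζ p) {z : K} (hz : IsPrimitiveRoot z (p ^ (N + 1))) (hzζ : z ^ p ^ N = ζ) {D : RD0 K p ζ}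
    {L : LDs D Ω} (hL : NL (N + 1) z L) (Q : DP K Ω) (Fr : FR L) (n : ℕ) :
    ∀ (k : ℕ), n ≤ k → k + n ≤ N + 1 → ∀ (R : Type) [Group R] [Finite R]
    (ρ : Gal(Ω/K) →* R), H38.ML.FT ρ → ∀ C : Gal(Ω/K) → Gal(Ω/K) → ℤ, IZ ((p : ℤ) ^ n) C →
    (∀ σ σ' τ τ', ρ σ = ρ σ' → ρ τ = ρ τ' → C σ τ = C σ' τ') →
    (∀ v ∈ D.S0, ∃ θ : Gal(Ω/K) → ℤ, Lev θ ∧ ∀ σ ∈ dec (K := K) (Q.P v),
      ∀ τ ∈ dec (K := K) (Q.P v), ((p : ℤ) ^ n) ∣ dd θ σ τ - C σ τ) →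
    (∀ v, v ∉ D.S0 → ∀ τ ∈ inr L v, ρ τ ^ (p ^ k) = 1) →
    ∀ T : Finset (Pl K), (∀ v ∈ T, v ∉ D.S0) → (∀ v, v ∉ D.S0 → v ∉ T → ρ (L.t v) = 1) →
    ((p : ℤ) ^ n) ∣ ∑ v ∈ T, (C (Fr.F v) (L.t v) - C (L.t v) (Fr.F v)) := by
  induction n with
  | zero =>
    intro k _ _ R _ _ ρ _ C _ _ _ _ T _ _
    rw [pow_zero]
    exact one_dvd _
  | succ n ih =>
    intro k hnk hkN R _ _ ρ hρ C hC hfac hS htm T hT hur
    have hzk : Zn p (k + 1) K := Zn.mono (n := N + 1) hp.pos ⟨z, hz⟩ (by omega)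
    have hz1 : IsPrimitiveRoot (z ^ p ^ (N - n)) (p ^ (n + 1)) := by
      refine hz.pow (pow_pos hp.pos _) ?_
      rw [← pow_add]
      congr 1
      omega
    have hz2 : (z ^ p ^ (N - n)) ^ p ^ n = ζ := by
      rw [← pow_mul, ← pow_add, ← hzζ]
      congr 2
      omega
    have hL1 : NL (n + 1) (z ^ p ^ (N - n)) L := by
      have h1 := hL.mono (m := n + 1) (by omega)
      have h2 : N + 1 - (n + 1) = N - n := by omega
      rw [h2] at h1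
      exact h1
    obtain ⟨R2, i1, i2, ρ2, C2, b, h1, h2, h3, h4, h5, hb1, hb2, hb3, h6⟩ :=
      gstn hp (mm_le (n := n + 1) (by omega) hmm) hp2 hζ hnk hzk hz1 hz2 hL1 Q Fr ρ hρ C hC hfac hS htm
    have hfin := ram_finite hp D L ρ2 h1
    set T2 : Finset (Pl K) := T ∪ (hfin.toFinset ∪ hb1.toFinset) with hT2
    have hT2S : ∀ v ∈ T2, v ∉ D.S0 := by
      intro v hv
      rcases Finset.mem_union.1 hv with h | h
      · exact hT v h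
      · rcases Finset.mem_union.1 h with h' | h'
        · exact ((Set.Finite.mem_toFinset hfin).1 h').1
        · intro hvS
          exact ((Set.Finite.mem_toFinset hb1).1 h') (hb2 v hvS)
    have h7 := ih (k + 1) (by omega) (by omega) R2 ρ2 h1 C2 h2 h3 h4 h5 T2 hT2S (fun v hv hvT => by
      by_contra h
      exact hvT (Finset.mem_union_right _ (Finset.mem_union_left _
        ((Set.Finite.mem_toFinset hfin).2 ⟨hv, h⟩))))
    have h8 : ∑ v ∈ T, (C (Fr.F v) (L.t v) - C (L.t v) (Fr.F v)) =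
        ∑ v ∈ T2, (C (Fr.F v) (L.t v) - C (L.t v) (Fr.F v)) := by
      refine Finset.sum_subset Finset.subset_union_left fun v hv hvT => ?_
      have h9 := hur v (hT2S v hv) hvT
      rw [hfac (Fr.F v) (Fr.F v) (L.t v) 1 rfl (by rw [h9, map_one]),
        hfac (L.t v) 1 (Fr.F v) (Fr.F v) (by rw [h9, map_one]) rfl, hC.l1, hC.r1, sub_self]
    have hpn : ((p ^ (n + 1) : ℕ) : ℤ) = (p : ℤ) ^ (n + 1) := by push_cast; rfl
    rw [h8, ← hpn]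
    apply (ZMod.intCast_zmod_eq_zero_iff_dvd _ (p ^ (n + 1))).1
    rw [Int.cast_sum, Finset.sum_congr rfl fun v hv => h6 v (hT2S v hv), Finset.sum_add_distrib]
    have h9 : ∑ v ∈ T2, b v = 0 := by
      rw [← hb3]
      refine (finsum_eq_sum_of_support_subset _ fun v hv => ?_).symm
      exact Finset.mem_coe.2 (Finset.mem_union_right _ (Finset.mem_union_right _
        ((Set.Finite.mem_toFinset hb1).2 hv)))
    rw [h9, zero_add, ← Int.cast_sum]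
    rw [ZMod.intCast_zmod_eq_zero_iff_dvd, hpn, ← Finset.mul_sum, pow_succ' (p : ℤ) n]
    exact mul_dvd_mul_left _ h7

/-- the integral form -/
theorem rmgz (hp : p.Prime) (hpo : p ≠ 2) (hp2 : MOne p K) (hζ : IsPrimitiveRoot ζ p) {N : ℕ}
    {z : K} (hz : IsPrimitiveRoot z (p ^ (N + 1))) (hzζ : z ^ p ^ N = ζ) {D : RD0 K p ζ}
    {L : LDs D Ω} (hL : NL (N + 1) z L) (Q : DP K Ω) (Fr : FR L) (n : ℕ) :
    ∀ (k : ℕ), n ≤ k → k + n ≤ N + 1 → ∀ (R : Type) [Group R] [Finite R]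
    (ρ : Gal(Ω/K) →* R), H38.ML.FT ρ → ∀ C : Gal(Ω/K) → Gal(Ω/K) → ℤ, IZ ((p : ℤ) ^ n) C →
    (∀ σ σ' τ τ', ρ σ = ρ σ' → ρ τ = ρ τ' → C σ τ = C σ' τ') →
    (∀ v ∈ D.S0, ∃ θ : Gal(Ω/K) → ℤ, Lev θ ∧ ∀ σ ∈ dec (K := K) (Q.P v),
      ∀ τ ∈ dec (K := K) (Q.P v), ((p : ℤ) ^ n) ∣ dd θ σ τ - C σ τ) →
    (∀ v, v ∉ D.S0 → ∀ τ ∈ inr L v, ρ τ ^ (p ^ k) = 1) →
    ∀ T : Finset (Pl K), (∀ v ∈ T, v ∉ D.S0) → (∀ v, v ∉ D.S0 → v ∉ T → ρ (L.t v) = 1) →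
    ((p : ℤ) ^ n) ∣ ∑ v ∈ T, (C (Fr.F v) (L.t v) - C (L.t v) (Fr.F v)) :=
  rmgn hp (H57.RQ.N.MM.odd hp hpo _ _) hp2 hζ hz hzζ hL Q Fr n

end H24.RK
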