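import Pool.Agent.H24.RK.Loc
import Pool.Agent.H57.BRA.Ltr

/-!
# [H24 RK LTR] transitivity on the primes above `v`, inertia of order `p ^ k`

`ltrK` as `ltr` (H57/BRA/Ltr.lean), `brK_loc` as `br_loc` (H57/BRA/BR.lean).
-/

set_option autoImplicit false

open scoped NumberField Pointwise
open IsDedekindDomain

noncomputable section

namespace H24.RK

open H63.MA H38.BB H38.BG H57.PC H57.BRA

variable {K : Type} [Field K] [NumberField K] {Ω : Type} [Field Ω] [Algebra K Ω] [IsAlgClosure K Ω]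
  {p : ℕ} {ζ : K}

theorem tmK {k : ℕ} (hp : p.Prime) (hζ : IsPrimitiveRoot ζ p) {v : Pl K} (hv : ¬ Above p v)
    {π : Kˣ} (hπ : ord v π = 1) (L : LD p ζ Ω v π) {G : Type} [Group G] [Finite G]
    (φ : Gal(Ω/K) →* G) (hφ : H38.ML.FT φ) (he : TmK p k φ L.P)
    (τ : Gal(Ω/K)) (hτ : τ ∈ L.P.inertia Gal(Ω/K)) : ∃ j : ℕ, φ τ = φ L.t ^ j := by
  have h1 := H48.MF.ing hp hζ hv hπ L φ hφ (fun τ hτ => ⟨k, he τ hτ⟩) τ hτ
  obtain ⟨j, hj⟩ := mem_powers_iff_mem_zpowers.2 h1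
  exact ⟨j, hj.symm⟩

/-- transitivity -/
theorem ltrK {k0 : ℕ} (hp : p.Prime) (hζ : IsPrimitiveRoot ζ p) {R : Type} [Group R]
    [Finite R] {e : R → R → ZMod p} (he : Coc p e) {ρ : Gal(Ω/K) →* R} (hρ : H38.ML.FT ρ)
    {v : Pl K} (hv : ¬ Above p v) {π : Kˣ} (hπ : ord v π = 1) (L : LD p ζ Ω v π) {F : Gal(Ω/K)}
    (hF : IsFrK (k0 + 1) L F) (htm : TmK p k0 ρ L.P) (P' : Ideal (𝓞 Ω)) (hP' : P'.IsPrime)
    (h' : P'.under (𝓞 K) = v.asIdeal) :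
    TmK p k0 ρ P' ∧ ∀ F', FrP P' F' → ∀ τ' ∈ P'.inertia Gal(Ω/K), ρ F' * ρ τ' = ρ τ' * ρ F' ∧
      ∃ k j : ℕ, iv e (ρ F') (ρ τ') = k * j * iv e (ρ F) (ρ L.t) ∧
        ∀ a : Kˣ, ord v a = 0 → kk p ζ a F' = k * lg p ζ v a := by
  obtain ⟨g, hg⟩ := ltr_conj L.prime hP' L.under h'
  have hinr : ∀ τ' ∈ P'.inertia Gal(Ω/K), g⁻¹ * τ' * g ∈ L.P.inertia Gal(Ω/K) := by
    intro τ' hτ' x
    have h1 : (g⁻¹ * τ' * g) • x - x = g⁻¹ • (τ' • (g • x) - g • x) := by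
      rw [smul_sub, mul_smul, mul_smul, inv_smul_smul]
    rw [h1]
    exact (hg _).1 (hτ' (g • x))
  have hco : ∀ σ : Gal(Ω/K), ρ σ = ρ g * ρ (g⁻¹ * σ * g) * (ρ g)⁻¹ := by
    intro σ
    rw [← map_inv, ← map_mul, ← map_mul]
    congr 1
    group
  refine ⟨?_, ?_⟩
  · intro τ' hτ'
    rw [hco τ', conj_pow, htm _ (hinr τ' hτ'), mul_one, mul_inv_cancel]
  · rintro F' ⟨k, hk⟩ τ' hτ'
    have hn : Ideal.absNorm (P'.under (𝓞 K)) = nm v := by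
      rw [h']
      rfl
    rw [hn] at hk
    have hF2 : ∀ x : 𝓞 Ω, (g⁻¹ * F' * g) • x - x ^ (nm v ^ k) ∈ L.P := by
      intro x
      have h1 : (g⁻¹ * F' * g) • x - x ^ (nm v ^ k) =
          g⁻¹ • (F' • (g • x) - (g • x) ^ (nm v ^ k)) := by
        rw [smul_sub, mul_smul, mul_smul, smul_pow', inv_smul_smul]
      rw [h1]
      exact (hg _).1 (hk (g • x))
    have hτ1 := ltr_pow L.prime hF.1 k hF2
    have hpp : ∀ τ ∈ L.P.inertia Gal(Ω/K), ρ τ ^ (p ^ k0) = 1 := htm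
    obtain ⟨j, hj⟩ : ∃ j, ρ (g⁻¹ * τ' * g) = ρ L.t ^ j :=
      tmK hp hζ hv hπ L ρ hρ hpp _ (hinr τ' hτ')
    obtain ⟨i, hi⟩ : ∃ i, ρ ((F ^ k)⁻¹ * (g⁻¹ * F' * g)) = ρ L.t ^ i :=
      tmK hp hζ hv hπ L ρ hρ hpp _ hτ1
    have hc : ρ F * ρ L.t = ρ L.t * ρ F := hF.2.2 R ρ hρ
      (fun τ hτ => by rw [pow_succ, pow_mul, hpp τ hτ, one_pow])
    have hF3 : ρ (g⁻¹ * F' * g) = ρ F ^ k * ρ L.t ^ i := by
      rw [← hi, ← map_pow, ← map_mul, mul_inv_cancel_left]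
    have hC : Commute (ρ F) (ρ L.t) := hc
    have hC1 : Commute (ρ F ^ k) (ρ L.t ^ j) := (hC.pow_left k).pow_right j
    have hC2 : Commute (ρ L.t ^ i) (ρ L.t ^ j) := (Commute.refl _).pow_pow i j
    have hC3 : Commute (ρ F ^ k * ρ L.t ^ i) (ρ L.t ^ j) := hC1.mul_left hC2
    have hC4 : Commute (ρ F) (ρ L.t ^ j) := hC.pow_right j
    have hiv : iv e (ρ F ^ k * ρ L.t ^ i) (ρ L.t ^ j) = k * j * iv e (ρ F) (ρ L.t) := by
      rw [iv_mul_left he hC1 hC2, iv_self_pow he, add_zero, iv_pow_left he hC4,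
        iv_pow_right he hc, mul_assoc]
    refine ⟨?_, k, j, ?_, ?_⟩
    · rw [hco F', hco τ', hF3, hj]
      have h1 : (ρ F ^ k * ρ L.t ^ i) * ρ L.t ^ j = ρ L.t ^ j * (ρ F ^ k * ρ L.t ^ i) := hC3
      calc ρ g * (ρ F ^ k * ρ L.t ^ i) * (ρ g)⁻¹ * (ρ g * ρ L.t ^ j * (ρ g)⁻¹)
          = ρ g * ((ρ F ^ k * ρ L.t ^ i) * ρ L.t ^ j) * (ρ g)⁻¹ := by group
        _ = ρ g * (ρ L.t ^ j * (ρ F ^ k * ρ L.t ^ i)) * (ρ g)⁻¹ := by rw [h1]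
        _ = _ := by group
    · rw [hco F', hco τ', hF3, hj, iv_conj he hC3, hiv]
    · intro a ha
      have h0 : kk p ζ a g⁻¹ + kk p ζ a g = 0 := by
        rw [← kk_mul, inv_mul_cancel, kk_one]
      have h1 : kk p ζ a F' = kk p ζ a (g⁻¹ * F' * g) := by
        rw [kk_mul, kk_mul]
        linear_combination -h0
      have h2 : g⁻¹ * F' * g = F ^ k * ((F ^ k)⁻¹ * (g⁻¹ * F' * g)) := by
        rw [mul_inv_cancel_left]
      have h3 : kk p ζ a (F ^ k) = k * kk p ζ a F := by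
        unfold kk
        rw [map_pow, toAdd_pow, nsmul_eq_mul]
      have h4 : kk p ζ a ((F ^ k)⁻¹ * (g⁻¹ * F' * g)) = 0 := by
        rw [ld_kk hp hζ hv hπ L _ hτ1, ha, Int.cast_zero, zero_mul]
      rw [h1, h2, kk_mul, h3, h4, add_zero, hF.2.1 a]
      unfold lgv
      rw [ha, neg_zero, zpow_zero, mul_one]

/-- the local data outside `S0` -/
theorem brK_loc {k0 : ℕ} (hp : p.Prime) (hζ : IsPrimitiveRoot ζ p) (hz : Zn p (k0 + 1) K)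
    {D : RD0 K p ζ} {L : LDs D Ω} (Fr : FR L) {R : Type} [Group R] [Finite R]
    {e : R → R → ZMod p} (he : Coc p e) {ρ : Gal(Ω/K) →* R} (hρ : H38.ML.FT ρ)
    {v : Pl K} (hvS : v ∉ D.S0) (htm : ∀ τ ∈ inr L v, ρ τ ^ (p ^ k0) = 1)
    (P' : Ideal (𝓞 Ω)) (hP' : P'.IsPrime) (h' : P'.under (𝓞 K) = v.asIdeal) :
    TmK p k0 ρ P' ∧ ∀ F', FrP P' F' → ∀ τ' ∈ P'.inertia Gal(Ω/K), ρ F' * ρ τ' = ρ τ' * ρ F' ∧
      ∃ k j : ℕ, iv e (ρ F') (ρ τ') = k * j * iv e (ρ (Fr.F v)) (ρ (L.t v)) ∧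
        ∀ a : Kˣ, ord v a = 0 → kk p ζ a F' = k * lg p ζ v a := by
  have hv : ¬ Above p v := fun h => hvS (D.above v h)
  have htm' : TmK p k0 ρ (L.ld v hvS).P := fun τ hτ => htm τ (by
    rw [inr, dif_pos hvS]
    exact hτ)
  have h5 : L.t v = (L.ld v hvS).t := by rw [LDs.t, dif_pos hvS]
  rw [h5]
  exact ltrK hp hζ he hρ hv (D.pi_self v hvS) (L.ld v hvS) (isFrK_of hp hζ hz Fr v hvS) htm' P' hP' h'

end H24.RK
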