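import Pool.Agent.H24.RK.Loc
import Pool.Agent.H63.MC.CLkC

/-!
# [H24 RK CLN] elements close to `1` are locally `p ^ N`-th powers

* `Cln p n P u`: `u` is `1` modulo more than `p ^ n` at `P` (`Cl` of H63/MC/CDef.lean is the case `n = 2`).
* `cln_root`: `z ^ p = u`, `Cln p (n + 1) P u`, `1 ≤ n`: `Cln p n P (z * ω⁻¹)` for some `ω` with `ω ^ p = 1`.
* `cln_fix`: `A ^ (p ^ N) = u`, `Cln p (N + 1) P u`, `σ` in the decomposition group of `P`, `σ u = u`: then `σ A = A`.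
-/

set_option autoImplicit false

open scoped NumberField Pointwise
open IsDedekindDomain

noncomputable section

namespace H24.RK

open H63.MA H38.BB H38.BG H57.PC H57.BRA

variable {K : Type} [Field K] [NumberField K] {Ω : Type} [Field Ω] [Algebra K Ω] [IsAlgClosure K Ω]
  {p : ℕ} {ζ : K}

/-- `u` is `1` modulo more than `p ^ n` at `P` -/
def Cln (p n : ℕ) {Ω : Type} [Field Ω] (P : Ideal (𝓞 Ω)) (u : Ω) : Prop :=
  ∃ a s : 𝓞 Ω, a ∈ P ∧ s ∉ P ∧ (s : Ω) * (u - 1) = (p : Ω) ^ n * (a : Ω)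

omit [NumberField K] [Algebra K Ω] [IsAlgClosure K Ω] [Field K] in
theorem Cln.mono {n m : ℕ} {P : Ideal (𝓞 Ω)} {u : Ω} (h : Cln p n P u) (hm : m ≤ n) :
    Cln p m P u := by
  obtain ⟨a, s, ha, hs, h⟩ := h
  obtain ⟨j, rfl⟩ := Nat.exists_eq_add_of_le hm
  refine ⟨(p : 𝓞 Ω) ^ j * a, s, P.mul_mem_left _ ha, hs, ?_⟩
  rw [h, pow_add]
  push_cast
  ring

omit [NumberField K] [Algebra K Ω] [IsAlgClosure K Ω] [Field K] in
open Polynomial Classical in
private theorem cln_prod (hp : p.Prime) (μ : Ω) (hμ : IsPrimitiveRoot μ p) (y : Ω) :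
    (∏ ω ∈ (nthRootsFinset p (1 : Ω)).erase 1, (y - ω)) * (y - 1) = y ^ p - 1 ∧
      ∏ ω ∈ (nthRootsFinset p (1 : Ω)).erase 1, (1 - ω) = (p : Ω) := by
  classical
  have h1 : (1 : Ω) ∈ nthRootsFinset p (1 : Ω) := by
    rw [mem_nthRootsFinset hp.pos]
    exact one_pow p
  have h2 := X_pow_sub_one_eq_prod hp.pos hμ
  rw [← Finset.prod_erase_mul _ _ h1] at h2
  have h3 : (∏ ω ∈ (nthRootsFinset p (1 : Ω)).erase 1, (X - C ω)) = ∑ i ∈ Finset.range p, (X : Polynomial Ω) ^ i := by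
    have h4 : (X : Polynomial Ω) - C 1 ≠ 0 := X_sub_C_ne_zero 1
    apply mul_right_cancel₀ h4
    rw [← h2, C_1, geom_sum_mul]
  constructor
  · have h5 := congrArg (Polynomial.eval y) h2
    rw [eval_sub, eval_pow, eval_X, eval_one, eval_mul, eval_sub, eval_X, eval_C, eval_prod] at h5
    rw [h5]
    congr 1
    refine Finset.prod_congr rfl fun ω _ => ?_
    rw [eval_sub, eval_X, eval_C]
  · have h5 := congrArg (Polynomial.eval 1) h3
    rw [eval_prod, eval_finset_sum] at h5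
    have h6 : ∀ ω : Ω, Polynomial.eval 1 (X - C ω) = 1 - ω := fun ω => by
      rw [eval_sub, eval_X, eval_C]
    simp only [h6, eval_pow, eval_X, one_pow, Finset.sum_const, Finset.card_range, nsmul_eq_mul,
      mul_one] at h5
    exact h5

omit [NumberField K] [Algebra K Ω] [IsAlgClosure K Ω] [Field K] in
open Polynomial Classical in
theorem cln_root (hp : p.Prime) {μ : Ω} (hμ : IsPrimitiveRoot μ p) (P : Ideal (𝓞 Ω))
    (hP : P.IsPrime) {n : ℕ} (hn : 1 ≤ n) {u z : Ω} (hu : Cln p (n + 1) P u) (hz : z ^ p = u) :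
    ∃ ω : Ω, ω ^ p = 1 ∧ Cln p n P (z * ω⁻¹) := by
  classical
  obtain ⟨a2, s2, ha2, hs2, h2⟩ := hu.mono (show 2 ≤ n + 1 by omega)
  obtain ⟨ω, b, hω, hb, hbs⟩ := clkA_root hp μ hμ P hP u z a2 s2 ha2 h2 hz
  obtain ⟨au, su, hau, hsu, hu'⟩ := hu
  have hp0 : NeZero p := ⟨hp.ne_zero⟩
  have hpΩ : (p : Ω) ≠ 0 := by
    have h3 := (cln_prod hp μ hμ 1).2
    rw [← h3, Finset.prod_ne_zero_iff]
    intro w hw
    exact sub_ne_zero.2 (Ne.symm (Finset.ne_of_mem_erase hw))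
  have hμi : IsIntegral ℤ μ := hμ.isIntegral hp.pos
  have hl0 : μ - 1 ≠ 0 := sub_ne_zero.2 (hμ.ne_one hp.one_lt)
  have hω0 : ω ≠ 0 := by
    intro h
    rw [h, zero_pow hp.ne_zero] at hω
    exact zero_ne_one hω
  have hωi : IsIntegral ℤ ω⁻¹ := by
    refine IsIntegral.of_pow hp.pos ?_
    rw [inv_pow, hω, inv_one]
    exact isIntegral_one
  obtain ⟨W, hW⟩ := clkA_mk _ hωi
  refine ⟨ω, hω, ?_⟩
  set y : Ω := z * ω⁻¹ with hy
  have hyp : y ^ p = u := by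
    rw [hy, mul_pow, inv_pow, hω, hz, inv_one, mul_one]
  have hby : (s2 : Ω) * (y - 1) = ((b * W : 𝓞 Ω) : Ω) * (μ - 1) := by
    have h3 : z = y * ω := by rw [hy, mul_assoc, inv_mul_cancel₀ hω0, mul_one]
    have h4 : (s2 : Ω) * (y - 1) * ω = (b : Ω) * (μ - 1) := by
      rw [hbs]
      linear_combination (-(s2 : Ω)) * h3
    have h5 : (s2 : Ω) * (y - 1) = (b : Ω) * (μ - 1) * ω⁻¹ := by
      rw [← h4, mul_assoc, mul_inv_cancel₀ hω0, mul_one]
    rw [h5]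
    push_cast
    simp only [hW]
    ring
  -- the units
  have hc : ∀ w : Ω, ∃ c : 𝓞 Ω, w ∈ (nthRootsFinset p (1 : Ω)).erase 1 →
      w - 1 = c * (μ - 1) ∧ c ∉ P := by
    intro w
    by_cases hw : w ∈ (nthRootsFinset p (1 : Ω)).erase 1
    · have hw1 := Finset.ne_of_mem_erase hw
      have hwp : w ^ p = 1 := (mem_nthRootsFinset hp.pos 1).1 (Finset.mem_of_mem_erase hw)
      have hpf : Fact p.Prime := ⟨hp⟩
      have hwpr : IsPrimitiveRoot w p := IsPrimitiveRoot.iff_orderOf.2 (orderOf_eq_prime hwp hw1)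
      obtain ⟨i, -, hi⟩ := hμ.eq_pow_of_pow_eq_one hwp
      obtain ⟨l, -, hl⟩ := hwpr.eq_pow_of_pow_eq_one hμ.pow_eq_one
      obtain ⟨c, hc⟩ := clkA_dvd μ hμi i
      obtain ⟨g, hg⟩ := clkA_dvd w (hwpr.isIntegral hp.pos) l
      rw [hi] at hc
      rw [hl] at hg
      refine ⟨c, fun _ => ⟨hc, fun hcP => ?_⟩⟩
      apply hP.ne_top
      rw [Ideal.eq_top_iff_one]
      have h4 : g * c = 1 := by
        apply NumberField.RingOfIntegers.ext
        apply mul_right_cancel₀ hl0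
        push_cast
        rw [one_mul, mul_assoc, ← hc, ← hg]
      rw [← h4]
      exact P.mul_mem_left _ hcP
    · exact ⟨0, fun h => absurd h hw⟩
  choose c hc using hc
  set S := (nthRootsFinset p (1 : Ω)).erase 1 with hS
  obtain ⟨hpr1, -⟩ := cln_prod hp μ hμ y
  obtain ⟨-, hpr2⟩ := cln_prod hp μ hμ 1
  rw [← hS] at hpr1 hpr2
  have e1 : (s2 : Ω) ^ S.card * ∏ w ∈ S, (y - w) =
      (μ - 1) ^ S.card * ∏ w ∈ S, (((b * W - s2 * c w : 𝓞 Ω) : Ω)) := by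
    rw [← Finset.prod_const, ← Finset.prod_const, ← Finset.prod_mul_distrib,
      ← Finset.prod_mul_distrib]
    refine Finset.prod_congr rfl fun w hw => ?_
    have h3 := (hc w hw).1
    push_cast at hby ⊢
    linear_combination hby - (s2 : Ω) * h3
  have e2 : (μ - 1) ^ S.card * ∏ w ∈ S, (((-c w : 𝓞 Ω) : Ω)) = (p : Ω) := by
    rw [← hpr2, ← Finset.prod_const, ← Finset.prod_mul_distrib]
    refine Finset.prod_congr rfl fun w hw => ?_
    have h3 := (hc w hw).1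
    push_cast
    linear_combination h3
  set CC : 𝓞 Ω := ∏ w ∈ S, (-c w) with hCC
  set WW : 𝓞 Ω := ∏ w ∈ S, (b * W - s2 * c w) with hWW
  have hCCc : ((CC : 𝓞 Ω) : Ω) = ∏ w ∈ S, (((-c w : 𝓞 Ω) : Ω)) := by
    change algebraMap (𝓞 Ω) Ω CC = _
    rw [hCC, map_prod]
  have hWWc : ((WW : 𝓞 Ω) : Ω) = ∏ w ∈ S, (((b * W - s2 * c w : 𝓞 Ω) : Ω)) := by
    change algebraMap (𝓞 Ω) Ω WW = _
    rw [hWW, map_prod]
  rw [← hCCc] at e2
  rw [← hWWc] at e1
  have hWP : WW ∉ P := by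
    intro h
    obtain ⟨w, hw, hwP⟩ := Ideal.IsPrime.prod_mem_iff.1 h
    have h3 : s2 * c w ∈ P := by
      have h4 := P.sub_mem (P.mul_mem_right W hb) hwP
      rwa [sub_sub_cancel] at h4
    rcases hP.mem_or_mem h3 with h5 | h5
    · exact hs2 h5
    · exact (hc w hw).2 h5
  refine ⟨s2 ^ S.card * CC * au, su * WW, P.mul_mem_left _ hau, fun h => ?_, ?_⟩
  · rcases hP.mem_or_mem h with h3 | h3
    · exact hsu h3
    · exact hWP h3
  · apply mul_left_cancel₀ hpΩ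
    rw [hyp] at hpr1
    push_cast
    have e3 : (s2 : Ω) ^ S.card * (u - 1) * CC = (p : Ω) * (WW : Ω) * (y - 1) := by
      rw [← hpr1, ← e2]
      linear_combination ((y - 1) * (CC : Ω)) * e1
    linear_combination (-(su : Ω)) * e3 + ((s2 : Ω) ^ S.card * (CC : Ω)) * hu'

theorem cln_fix (hp : p.Prime) (P : Ideal (𝓞 Ω)) (hP : P.IsPrime) (hP0 : P ≠ ⊥) (N : ℕ) :
    ∀ (_ : Zn p N K) (u A : Ω), Cln p (N + 1) P u → A ^ (p ^ N) = u → ∀ σ : Gal(Ω/K),
      σ ∈ dec (K := K) P → σ u = u → σ A = A := by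
  induction N with
  | zero =>
    intro _ u A _ hA σ _ hσu
    rw [pow_zero, pow_one] at hA
    rw [hA, hσu]
  | succ N ih =>
    intro hz u A hu hA σ hσ hσu
    obtain ⟨z, hz⟩ := hz
    have hp0 : NeZero p := ⟨hp.ne_zero⟩
    have hζ : IsPrimitiveRoot (z ^ p ^ N) p := by
      refine hz.pow (pow_pos hp.pos _) ?_
      rw [pow_succ]
    have hμ : IsPrimitiveRoot (algebraMap K Ω (z ^ p ^ N)) p :=
      hζ.map_of_injective (algebraMap K Ω).injective
    have hA1 : (A ^ p ^ N) ^ p = u := by rw [← pow_mul, ← pow_succ, hA]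
    have h1 : σ (A ^ p ^ N) = A ^ p ^ N :=
      cl_fix hp hζ P hP hP0 u _ (hu.mono (show 2 ≤ N + 1 + 1 by omega)) hA1 σ hσ hσu
    obtain ⟨ω, hω, hcl⟩ := cln_root hp hμ P hP (show 1 ≤ N + 1 by omega) hu hA1
    obtain ⟨i, -, hi⟩ := hμ.eq_pow_of_pow_eq_one hω
    set η : K := z ^ i with hη
    have hηω : (algebraMap K Ω η) ^ p ^ N = ω := by
      rw [← hi, hη, map_pow, map_pow, ← pow_mul, ← pow_mul, mul_comm]
    have hη0 : algebraMap K Ω η ≠ 0 := by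
      rw [Ne, map_eq_zero, hη]
      exact pow_ne_zero _ (hz.ne_zero (pow_pos hp.pos _).ne')
    have h2 := ih ⟨z ^ p, hz.pow (pow_pos hp.pos _) (by rw [pow_succ, mul_comm])⟩
      (A ^ p ^ N * ω⁻¹) (A * (algebraMap K Ω η)⁻¹) hcl (by rw [mul_pow, inv_pow, hηω]) σ hσ (by
        rw [map_mul, map_inv₀, h1, ← hi, map_pow, AlgEquiv.commutes])
    rw [map_mul, map_inv₀, AlgEquiv.commutes] at h2
    exact mul_right_cancel₀ (inv_ne_zero hη0) h2

omit [IsAlgClosure K Ω] in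
theorem cln_of_val (v : Pl K) (P : Ideal (𝓞 Ω)) {n : ℕ}
    (hv : P.under (𝓞 K) = v.asIdeal) (x : Kˣ)
    (hx : v.valuation K ((x : K) - 1) < v.valuation K ((p : K) ^ n)) :
    Cln p n P (algebraMap K Ω (x : K)) := by
  have hp0 : (p : K) ^ n ≠ 0 := by
    intro h0
    rw [h0, map_zero] at hx
    exact not_lt_zero hx
  have ht : v.valuation K (((x : K) - 1) / (p : K) ^ n) < 1 := by
    rw [map_div₀]
    exact (div_lt_one₀ (zero_lt_iff.2 ((Valuation.ne_zero_iff _).2 hp0))).2 hx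
  obtain ⟨m, d, hnd⟩ := v.exists_primeCompl_mul_eq_of_integer (K := K) _ ht.le
  have hn : m ∈ P.under (𝓞 K) := by
    rw [hv]
    refine (IsDedekindDomain.HeightOneSpectrum.valuation_lt_one_iff_mem (K := K) v m).1 ?_
    change v.valuation K (algebraMap (𝓞 K) K m) < 1
    rw [← hnd, map_mul]
    exact mul_lt_one_of_lt_of_le ht (v.valuation_le_one _)
  have hd : (d : 𝓞 K) ∉ P.under (𝓞 K) := by
    rw [hv]
    exact d.2
  refine ⟨algebraMap (𝓞 K) (𝓞 Ω) m, algebraMap (𝓞 K) (𝓞 Ω) d, hn, hd, ?_⟩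
  have h1 : ∀ y : 𝓞 K, ((algebraMap (𝓞 K) (𝓞 Ω) y : 𝓞 Ω) : Ω) = algebraMap K Ω (y : K) := by
    intro y
    rfl
  rw [h1, h1]
  have h2 : ((d : 𝓞 K) : K) * ((x : K) - 1) = (p : K) ^ n * (m : K) := by
    have h3 := hnd
    rw [div_mul_eq_mul_div, div_eq_iff hp0] at h3
    rw [mul_comm, h3, mul_comm]
  have h4 := congrArg (algebraMap K Ω) h2
  rw [map_mul, map_mul, map_pow, map_natCast, map_sub, map_one] at h4
  exact h4

end H24.RK
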