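import Pool.Agent.H24.RK.Kil
import Pool.Agent.H24.RM.Stp
import Pool.Agent.H57.RN.Rec

/-!
# [H24 RK GST] devissage: from `p^(m+1)` to `p^m`, inertia of order `p^k`

`X = C mod p`; `X + (a, d)_p` is trivial (`kil`); `C + (a, d)_(p^(m+1)) = p C2 + coboundary`. The tori of `(a, d)` are the tame symbols of order `p^(m+1)` (`tor_bk`).
-/

set_option autoImplicit false
set_option linter.dupNamespace false

open scoped NumberField
open IsDedekindDomain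
open scoped Classical

noncomputable section

namespace H24.RK

open H63.MA H38.BB H38.BG H57.PC H57.BRA H89.BRG H57.RQ Pool.Agent.H24.RM

variable {K : Type} [Field K] [NumberField K] {Ω : Type} [Field Ω] [Algebra K Ω]
  [IsAlgClosure K Ω] {p : ℕ} {ζ : K}

omit [NumberField K] [Algebra K Ω] [IsAlgClosure K Ω] [Field K] [Field Ω] in
theorem val_co {N : ℕ} [NeZero N] {G : Type} [Group G] {Θ Ψ : G → ZMod N}
    (hΘ : ∀ σ τ, Θ (σ * τ) = Θ σ + Θ τ) (hΨ : ∀ σ τ, Ψ (σ * τ) = Ψ σ + Ψ τ) :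
    IZ (N : ℤ) (fun σ τ => ((Θ σ).val : ℤ) * ((Ψ τ).val : ℤ)) := by
  have h1 : ∀ {Θ : G → ZMod N}, (∀ σ τ, Θ (σ * τ) = Θ σ + Θ τ) → Θ 1 = 0 := by
    intro Θ h
    have h2 := h 1 1
    rw [mul_one] at h2
    exact left_eq_add.1 h2
  refine ⟨fun σ => ?_, fun σ => ?_, fun σ τ υ => ?_⟩
  · show ((Θ 1).val : ℤ) * _ = 0
    rw [h1 hΘ, ZMod.val_zero, Nat.cast_zero, zero_mul]
  · show _ * ((Ψ 1).val : ℤ) = 0
    rw [h1 hΨ, ZMod.val_zero, Nat.cast_zero, mul_zero]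
  · apply (ZMod.intCast_zmod_eq_zero_iff_dvd _ N).1
    push_cast
    simp only [ZMod.natCast_zmod_val, hΘ, hΨ]
    ring

/-- all primes -/
theorem gstn (hp : p.Prime) {k m : ℕ} (hmm : N.MM p (m + 1) K) (hp2 : MOne p K) (hζ : IsPrimitiveRoot ζ p)
    (hkm : m + 1 ≤ k) (hzk : Zn p (k + 1) K) {z : K} (hz : IsPrimitiveRoot z (p ^ (m + 1)))
    (hzζ : z ^ p ^ m = ζ) {D : RD0 K p ζ} {L : LDs D Ω} (hL : NL (m + 1) z L) (Q : DP K Ω)
    (Fr : FR L) {R : Type} [Group R] [Finite R] (ρ : Gal(Ω/K) →* R) (hρ : H38.ML.FT ρ)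
    (C : Gal(Ω/K) → Gal(Ω/K) → ℤ) (hC : IZ ((p : ℤ) ^ (m + 1)) C)
    (hfac : ∀ σ σ' τ τ', ρ σ = ρ σ' → ρ τ = ρ τ' → C σ τ = C σ' τ')
    (hS : ∀ v ∈ D.S0, ∃ θ : Gal(Ω/K) → ℤ, Lev θ ∧ ∀ σ ∈ dec (K := K) (Q.P v),
      ∀ τ ∈ dec (K := K) (Q.P v), ((p : ℤ) ^ (m + 1)) ∣ dd θ σ τ - C σ τ)
    (htm : ∀ v, v ∉ D.S0 → ∀ τ ∈ inr L v, ρ τ ^ (p ^ k) = 1) :
    ∃ (R2 : Type) (_ : Group R2) (_ : Finite R2) (ρ2 : Gal(Ω/K) →* R2)
      (C2 : Gal(Ω/K) → Gal(Ω/K) → ℤ) (b : Pl K → ZMod (p ^ (m + 1))), H38.ML.FT ρ2 ∧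
      IZ ((p : ℤ) ^ m) C2 ∧
      (∀ σ σ' τ τ', ρ2 σ = ρ2 σ' → ρ2 τ = ρ2 τ' → C2 σ τ = C2 σ' τ') ∧
      (∀ v ∈ D.S0, ∃ θ : Gal(Ω/K) → ℤ, Lev θ ∧ ∀ σ ∈ dec (K := K) (Q.P v),
        ∀ τ ∈ dec (K := K) (Q.P v), ((p : ℤ) ^ m) ∣ dd θ σ τ - C2 σ τ) ∧
      (∀ v, v ∉ D.S0 → ∀ τ ∈ inr L v, ρ2 τ ^ (p ^ (k + 1)) = 1) ∧
      {v | b v ≠ 0}.Finite ∧ (∀ v ∈ D.S0, b v = 0) ∧ ∑ᶠ v, b v = 0 ∧
      ∀ v, v ∉ D.S0 → ((C (Fr.F v) (L.t v) - C (L.t v) (Fr.F v) : ℤ) : ZMod (p ^ (m + 1))) =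
        b v + (((p : ℤ) * (C2 (Fr.F v) (L.t v) - C2 (L.t v) (Fr.F v)) : ℤ) :
          ZMod (p ^ (m + 1))) := by
  have hk : 0 < k := by omega
  have hp0 : (p : ℤ) ≠ 0 := by exact_mod_cast hp.ne_zero
  haveI : NeZero p := ⟨hp.ne_zero⟩
  haveI : NeZero (p ^ (m + 1)) := ⟨pow_ne_zero _ hp.ne_zero⟩
  haveI : Fact p.Prime := ⟨hp⟩
  have hpn : ((p ^ (m + 1) : ℕ) : ℤ) = (p : ℤ) ^ (m + 1) := by push_cast; rfl
  have hQne : ∀ v, Q.P v ≠ ⊥ := by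
    intro v h
    have h1 := Q.under v
    rw [h] at h1
    apply v.ne_bot
    rw [← h1]
    have hinj : Function.Injective (algebraMap (𝓞 K) (𝓞 Ω)) :=
      NumberField.RingOfIntegers.algebraMap.injective K Ω
    rw [Ideal.under, ← RingHom.ker_eq_comap_bot, (RingHom.injective_iff_ker_eq_bot _).mp hinj]
  -- the ramified primes
  have hfin := ram_finite hp D L ρ hρ
  set T0 := hfin.toFinset with hT0
  have hT0m : ∀ v, v ∈ T0 ↔ v ∉ D.S0 ∧ ρ (L.t v) ≠ 1 := fun v => Set.Finite.mem_toFinset hfin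
  -- the element `a`
  obtain ⟨a, ha1, ha2, ha3, ha4⟩ := gmul (p := p) hp hζ (m + 1 + 1) D.S0 T0 (fun v hv =>
    ⟨((hT0m v).1 hv).1, fun h => ((hT0m v).1 hv).1 (D.above v h)⟩)
  -- the cocycle modulo `p`
  have hX1 : ∀ σ τ υ, (((C τ υ : ℤ) : ZMod p) + ((C σ (τ * υ) : ℤ) : ZMod p)) =
      ((C (σ * τ) υ : ℤ) : ZMod p) + ((C σ τ : ℤ) : ZMod p) := by
    intro σ τ υ
    have h := dz ((dvd_pow_self (p : ℤ) (by omega : m + 1 ≠ 0)).trans (hC.co σ τ υ))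
    push_cast at h
    linear_combination h
  obtain ⟨e0, he0, hpe0⟩ := H51.MT.brg_e ρ (fun σ τ => ((C σ τ : ℤ) : ZMod p))
    (fun σ => by rw [hC.l1, Int.cast_zero]) (fun σ => by rw [hC.r1, Int.cast_zero]) hX1
    (fun σ σ' τ τ' h h' => by rw [hfac σ σ' τ τ' h h'])
  have hrange : ∀ {R' : Type} [Group R'] (ρ' : Gal(Ω/K) →* R'), H38.ML.FT ρ' →
      H38.ML.FT ρ'.rangeRestrict := by
    intro R' _ ρ' hρ'
    obtain ⟨E', h, h'⟩ := hρ'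
    exact ⟨E', h, fun u hu => MonoidHom.mem_ker.2 (Subtype.ext (MonoidHom.mem_ker.1 (h' hu)))⟩
  choose! θ hθl hθ using hS
  obtain ⟨d, l, hll, hlX⟩ := kil hk hp hp2 hζ hzk Q Fr he0 (hrange ρ hρ) (fun v hv => by
      refine ⟨fun σ => ((-(θ v σ) : ℤ) : ZMod p), ?_, fun σ hσ τ hτ => ?_⟩
      · obtain ⟨E, hE, h⟩ := hθl v hv
        exact ⟨E, hE, fun σ u hu => congrArg (fun x : ℤ => ((-x : ℤ) : ZMod p)) (h σ u hu)⟩
      · have h1 := dz ((dvd_pow_self (p : ℤ) (by omega : m + 1 ≠ 0)).trans (hθ v hv σ hσ τ hτ))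
        unfold dd at h1
        show ((-(θ v (σ * τ)) : ℤ) : ZMod p) = ((-(θ v σ) : ℤ) : ZMod p) +
          ((-(θ v τ) : ℤ) : ZMod p) + e0 (ρ.rangeRestrict σ) (ρ.rangeRestrict τ)
        rw [hpe0]
        push_cast at h1 ⊢
        linear_combination h1)
    (fun v hv τ hτ => Subtype.ext (htm v hv τ hτ)) T0 (fun v hv => ((hT0m v).1 hv).1)
    (fun v hv hvT => by
      by_contra h
      exact hvT ((hT0m v).2 ⟨hv, fun h' => h (Subtype.ext h')⟩)) ha4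
  -- the Kummer characters of order `p ^ (m + 1)`
  obtain ⟨Θ, hΘ⟩ := klr (Ω := Ω) hp hz a
  obtain ⟨Ψ, hΨ⟩ := klr (Ω := Ω) hp hz d
  have hΘk := fun σ => hΘ.cast hp hz hζ hzζ σ
  have hΨk := fun σ => hΨ.cast hp hz hζ hzζ σ
  have hΘS : ∀ v ∈ D.S0, ∀ σ ∈ dec (K := K) (Q.P v), Θ σ = 0 := fun v hv σ hσ =>
    klr_dec hp hz hΘ (Q.prime v) (hQne v) (Q.under v) (ha2 v hv) σ hσ
  -- the cochain `C1`
  set cc : Gal(Ω/K) → Gal(Ω/K) → ℤ := fun σ τ => ((Θ σ).val : ℤ) * ((Ψ τ).val : ℤ) with hcc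
  have hcc1 : IZ ((p : ℤ) ^ (m + 1)) cc := by
    rw [← hpn]
    exact val_co hΘ.mul hΨ.mul
  set C1 : Gal(Ω/K) → Gal(Ω/K) → ℤ := fun σ τ => C σ τ + cc σ τ with hC1def
  have hC1 : IZ ((p : ℤ) ^ (m + 1)) C1 := by
    refine ⟨fun σ => ?_, fun σ => ?_, fun σ τ υ => ?_⟩
    · show C 1 σ + cc 1 σ = 0
      rw [hC.l1, hcc1.l1, add_zero]
    · show C σ 1 + cc σ 1 = 0
      rw [hC.r1, hcc1.r1, add_zero]
    · have h1 := dvd_add (hC.co σ τ υ) (hcc1.co σ τ υ)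
      refine (Int.dvd_iff_dvd_of_dvd_sub ?_).1 h1
      refine ⟨0, ?_⟩
      show C τ υ - C (σ * τ) υ + C σ (τ * υ) - C σ τ +
        (cc τ υ - cc (σ * τ) υ + cc σ (τ * υ) - cc σ τ) -
        ((C τ υ + cc τ υ) - (C (σ * τ) υ + cc (σ * τ) υ) + (C σ (τ * υ) + cc σ (τ * υ)) -
          (C σ τ + cc σ τ)) = (p : ℤ) ^ (m + 1) * 0
      ring
  let M1 : Type := Multiplicative (ZMod (p ^ (m + 1)))
  haveI : Finite M1 := inferInstanceAs (Finite (ZMod (p ^ (m + 1))))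
  let ρ1 : Gal(Ω/K) →* R × (M1 × M1) :=
    ρ.prod (MonoidHom.prod
      (MonoidHom.mk' (fun σ => Multiplicative.ofAdd (Θ σ)) (fun σ τ => by rw [hΘ.mul]; rfl))
      (MonoidHom.mk' (fun σ => Multiplicative.ofAdd (Ψ σ)) (fun σ τ => by rw [hΨ.mul]; rfl)))
  have hρ1 : ∀ σ, ρ1 σ = (ρ σ, (Multiplicative.ofAdd (Θ σ), Multiplicative.ofAdd (Ψ σ))) :=
    fun _ => rfl
  have hρ1f : H38.ML.FT ρ1 := lev_ft ρ1 (gtriv_lev (ft_lev ρ hρ) (gtriv_lev hΘ.lev hΨ.lev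
    (fun x y => ((Multiplicative.ofAdd x, Multiplicative.ofAdd y) : M1 × M1)))
    (fun x y => (x, y)))
  have hρχ : ∀ σ σ', ρ1 σ = ρ1 σ' → ρ σ = ρ σ' ∧ Θ σ = Θ σ' ∧ Ψ σ = Ψ σ' := by
    intro σ σ' h
    rw [hρ1, hρ1] at h
    exact ⟨congrArg Prod.fst h, Multiplicative.ofAdd.injective (congrArg (fun x => x.2.1) h),
      Multiplicative.ofAdd.injective (congrArg (fun x => x.2.2) h)⟩
  have hfac1 : ∀ σ σ' τ τ', ρ1 σ = ρ1 σ' → ρ1 τ = ρ1 τ' → C1 σ τ = C1 σ' τ' := by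
    intro σ σ' τ τ' h h'
    show C σ τ + ((Θ σ).val : ℤ) * ((Ψ τ).val : ℤ) = C σ' τ' + ((Θ σ').val : ℤ) * ((Ψ τ').val : ℤ)
    rw [hfac σ σ' τ τ' (hρχ _ _ h).1 (hρχ _ _ h').1, (hρχ _ _ h).2.1, (hρχ _ _ h').2.2]
  have hX2 : ∀ σ τ υ, (((C1 τ υ : ℤ) : ZMod p) + ((C1 σ (τ * υ) : ℤ) : ZMod p)) =
      ((C1 (σ * τ) υ : ℤ) : ZMod p) + ((C1 σ τ : ℤ) : ZMod p) := by
    intro σ τ υ
    have h := dz ((dvd_pow_self (p : ℤ) (by omega : m + 1 ≠ 0)).trans (hC1.co σ τ υ))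
    push_cast at h
    linear_combination h
  obtain ⟨e, he, hpe⟩ := H51.MT.brg_e ρ1 (fun σ τ => ((C1 σ τ : ℤ) : ZMod p))
    (fun σ => by rw [hC1.l1, Int.cast_zero]) (fun σ => by rw [hC1.r1, Int.cast_zero]) hX2
    (fun σ σ' τ τ' h h' => by rw [hfac1 σ σ' τ τ' h h'])
  set ρr : Gal(Ω/K) →* ρ1.range := ρ1.rangeRestrict with hρr
  have hρrf : H38.ML.FT ρr := hrange ρ1 hρ1f
  have hfacr : ∀ σ σ' τ τ', ρr σ = ρr σ' → ρr τ = ρr τ' → C1 σ τ = C1 σ' τ' :=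
    fun σ σ' τ τ' h h' => hfac1 σ σ' τ τ' (congrArg Subtype.val h) (congrArg Subtype.val h')
  -- the coboundary modulo `p`
  have hlX' : ∀ σ τ, l (σ * τ) = l σ + l τ + ((C1 σ τ : ℤ) : ZMod p) := by
    intro σ τ
    rw [hlX σ τ]
    congr 1
    show e0 (ρ.rangeRestrict σ) (ρ.rangeRestrict τ) + kk p ζ a σ * kk p ζ d τ =
      ((C σ τ + ((Θ σ).val : ℤ) * ((Ψ τ).val : ℤ) : ℤ) : ZMod p)
    rw [hpe0, ← hΘk, ← hΨk]
    push_cast
    ring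
  have hlXe : ∀ σ τ, l (σ * τ) = l σ + l τ + e (ρr σ) (ρr τ) := by
    intro σ τ
    rw [hpe]
    exact hlX' σ τ
  have hl1 : l 1 = 0 := by
    have h1 := hlX' 1 1
    rw [mul_one, hC1.l1, Int.cast_zero, add_zero] at h1
    exact left_eq_add.1 h1
  set lt : Gal(Ω/K) → ℤ := fun σ => ((l σ).val : ℤ) with hlt
  have hltk : ∀ σ, ((lt σ : ℤ) : ZMod p) = l σ := fun σ => gkum_val hp _
  have hlt1 : lt 1 = 0 := by
    show ((l 1).val : ℤ) = 0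
    rw [hl1, ZMod.val_zero, Nat.cast_zero]
  have hltl : Lev lt := by
    obtain ⟨E, hE, h⟩ := hll
    exact ⟨E, hE, fun σ u hu => congrArg (fun x : ZMod p => ((x.val : ℕ) : ℤ)) (h σ u hu)⟩
  set C2 : Gal(Ω/K) → Gal(Ω/K) → ℤ := fun σ τ => (C1 σ τ + dd lt σ τ) / p with hC2
  have hC2p : ∀ σ τ, (p : ℤ) * C2 σ τ = C1 σ τ + dd lt σ τ := fun σ τ => by
    refine Int.mul_ediv_cancel' (zd _ ?_)
    unfold dd
    push_cast
    rw [hltk, hltk, hltk, hlX']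
    ring
  let ρ2 : Gal(Ω/K) →* Xt e he :=
    { toFun := fun σ => ⟨ρr σ, l σ⟩
      map_one' := by
        rw [map_one, hl1]
        rfl
      map_mul' := fun σ τ => by
        rw [xt_mul, map_mul, hlXe σ τ] }
  haveI : Finite (Xt e he) := xt_fin he
  have hρ2f : H38.ML.FT ρ2 := lev_ft ρ2 (gtriv_lev (ft_lev ρr hρrf) hll
    (fun x y => (⟨x, y⟩ : Xt e he)))
  have hfac2l : ∀ σ σ', ρ2 σ = ρ2 σ' → ρr σ = ρr σ' ∧ lt σ = lt σ' := by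
    intro σ σ' h
    refine ⟨congrArg Xt.r h, ?_⟩
    have h2 : l σ = l σ' := congrArg Xt.z h
    show ((l σ).val : ℤ) = ((l σ').val : ℤ)
    rw [h2]
  have hM1 : ∀ x : M1, x ^ (p ^ k) = 1 := by
    intro x
    obtain ⟨j, hj⟩ := pow_dvd_pow p hkm
    have h1 : x ^ (p ^ (m + 1)) = 1 := by
      apply Multiplicative.toAdd.injective
      rw [toAdd_pow, toAdd_one, nsmul_eq_mul, ZMod.natCast_self, zero_mul]
    rw [hj, pow_mul, h1, one_pow]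
  have htm2 : ∀ v, v ∉ D.S0 → ∀ τ ∈ inr L v, ρ2 τ ^ (p ^ (k + 1)) = 1 := by
    intro v hv τ hτ
    have h1 : ρr τ ^ (p ^ k) = 1 := by
      apply Subtype.ext
      show ρ1 τ ^ (p ^ k) = 1
      rw [hρ1]
      exact Prod.ext (htm v hv τ hτ) (Prod.ext (hM1 _) (hM1 _))
    have h2 := pw_lift he (ρr τ) (l τ) (p ^ k)
    rw [h1] at h2
    have h3 : ρ2 τ = (⟨ρr τ, l τ⟩ : Xt e he) := rfl
    rw [h3, pow_succ p k, pow_mul, h2, pw_lift he]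
    apply Xt.ext
    · exact one_pow p
    · show (p : ZMod p) * _ + _ = 0
      rw [CharP.cast_eq_zero, zero_mul, zero_add]
      exact Finset.sum_eq_zero fun i _ => by rw [one_pow, he.l1]
  have hsymm : ∀ v ∈ D.S0, Bk p (m + 1) z v a d = 0 := by
    intro v hv
    by_cases hva : Above p v
    · unfold Bk
      rw [if_pos hva]
    · rw [bk_symm hp hz, bk_one1 hp hz d (ha3 v hv hva), neg_zero]
  refine ⟨Xt e he, inferInstance, inferInstance, ρ2, C2, fun v => -Bk p (m + 1) z v a d, hρ2f,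
    iz_step hp0 hC1 hlt1 hC2p, ?_, ?_, htm2, ?_, ?_, ?_, ?_⟩
  · intro σ σ' τ τ' h h'
    have h3 : ρ2 (σ * τ) = ρ2 (σ' * τ') := by rw [map_mul, map_mul, h, h']
    show (C1 σ τ + dd lt σ τ) / p = (C1 σ' τ' + dd lt σ' τ') / p
    unfold dd
    rw [hfacr σ σ' τ τ' (hfac2l _ _ h).1 (hfac2l _ _ h').1, (hfac2l _ _ h).2, (hfac2l _ _ h').2,
      (hfac2l _ _ h3).2]
  · -- the coboundaries at `S0`
    have hθC1 : ∀ v ∈ D.S0, ∀ σ ∈ dec (K := K) (Q.P v), ∀ τ ∈ dec (K := K) (Q.P v),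
        ((p : ℤ) ^ (m + 1)) ∣ dd (θ v) σ τ - C1 σ τ := by
      intro v hv σ hσ τ hτ
      have h1 : C1 σ τ = C σ τ := by
        show C σ τ + ((Θ σ).val : ℤ) * ((Ψ τ).val : ℤ) = C σ τ
        rw [hΘS v hv σ hσ, ZMod.val_zero, Nat.cast_zero, zero_mul, add_zero]
      rw [h1]
      exact hθ v hv σ hσ τ hτ
    set μ : Pl K → Gal(Ω/K) → ℤ := fun v σ => θ v σ + lt σ with hμ
    have hμl : ∀ v ∈ D.S0, Lev (μ v) := fun v hv => gtriv_lev (hθl v hv) hltl (fun x y => x + y)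
    have hμd : ∀ v ∈ D.S0, ∀ σ ∈ dec (K := K) (Q.P v), ∀ τ ∈ dec (K := K) (Q.P v),
        ((p : ℤ) ^ (m + 1)) ∣ dd (μ v) σ τ - p * C2 σ τ := by
      intro v hv σ hσ τ hτ
      have h1 := hθC1 v hv σ hσ τ hτ
      have h2 : dd (μ v) σ τ - p * C2 σ τ = dd (θ v) σ τ - C1 σ τ := by
        rw [hC2p]
        show θ v σ + lt σ + (θ v τ + lt τ) - (θ v (σ * τ) + lt (σ * τ)) -
          (C1 σ τ + (lt σ + lt τ - lt (σ * τ))) =
          θ v σ + θ v τ - θ v (σ * τ) - C1 σ τ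
        ring
      rw [h2]
      exact h1
    have hμh : ∀ v ∈ D.S0, ∀ σ ∈ dec (K := K) (Q.P v), ∀ τ ∈ dec (K := K) (Q.P v),
        ((μ v (σ * τ) : ℤ) : ZMod p) = ((μ v σ : ℤ) : ZMod p) + ((μ v τ : ℤ) : ZMod p) := by
      intro v hv σ hσ τ hτ
      have h1 := dz ((dvd_pow_self (p : ℤ) (by omega : m + 1 ≠ 0)).trans (hμd v hv σ hσ τ hτ))
      unfold dd at h1
      push_cast at h1
      rw [ZMod.natCast_self, zero_mul, sub_zero] at h1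
      linear_combination -h1
    have hμ1 : ∀ v ∈ D.S0, ((μ v 1 : ℤ) : ZMod p) = 0 := by
      intro v hv
      have h1 := hμh v hv 1 (Subgroup.one_mem _) 1 (Subgroup.one_mem _)
      rw [mul_one] at h1
      exact left_eq_add.1 h1
    let dl : (v : Pl K) → dec (K := K) (Q.P v) →* Multiplicative (ZMod p) := fun v =>
      if hv : v ∈ D.S0 then
        { toFun := fun u => Multiplicative.ofAdd ((μ v (u : Gal(Ω/K)) : ℤ) : ZMod p)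
          map_one' := by
            show Multiplicative.ofAdd ((μ v (1 : Gal(Ω/K)) : ℤ) : ZMod p) = 1
            rw [hμ1 v hv]
            rfl
          map_mul' := fun u u' => by
            show Multiplicative.ofAdd ((μ v ((u : Gal(Ω/K)) * (u' : Gal(Ω/K))) : ℤ) : ZMod p) = _
            rw [hμh v hv _ u.2 _ u'.2]
            rfl }
      else 1
    have hdl : ∀ v ∈ D.S0, ∀ u : dec (K := K) (Q.P v),
        Multiplicative.toAdd (dl v u) = ((μ v (u : Gal(Ω/K)) : ℤ) : ZMod p) := by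
      intro v hv u
      show Multiplicative.toAdd ((if hv : v ∈ D.S0 then _ else (1 : dec (K := K) (Q.P v) →* Multiplicative (ZMod p))) u) = _
      rw [dif_pos hv]
      rfl
    obtain ⟨b', hb'⟩ := lock (Ω := Ω) hp hζ D.S0 Q dl (fun v hv => by
      obtain ⟨E, hE, h⟩ := hμl v hv
      refine ⟨E, hE, fun u hu => ?_⟩
      apply Multiplicative.toAdd.injective
      rw [hdl v hv u, toAdd_one]
      have h1 := h 1 (u : Gal(Ω/K)) hu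
      rw [one_mul] at h1
      rw [h1]
      exact hμ1 v hv)
    obtain ⟨Θ', hΘl', hΘk', hΘd'⟩ := kl (Ω := Ω) hp hζ (n := m + 1) (by omega) hz hzζ b'
    intro v hv
    refine ⟨fun σ => (μ v σ - Θ' σ) / p, gtriv_lev (hμl v hv) hΘl' (fun x y => (x - y) / (p : ℤ)),
      fun σ hσ τ hτ => ?_⟩
    have hdiv : ∀ σ ∈ dec (K := K) (Q.P v), (p : ℤ) * ((μ v σ - Θ' σ) / p) = μ v σ - Θ' σ := by
      intro σ hσ
      refine Int.mul_ediv_cancel' (zd _ ?_)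
      push_cast
      rw [hΘk', hb' v hv ⟨σ, hσ⟩, hdl v hv ⟨σ, hσ⟩, sub_self]
    have h1 := hdiv σ hσ
    have h2 := hdiv τ hτ
    have h3 := hdiv (σ * τ) (Subgroup.mul_mem _ hσ hτ)
    have h4 := hμd v hv σ hσ τ hτ
    have h6 := hΘd' σ τ
    have h7 : (p : ℤ) * (dd (fun σ => (μ v σ - Θ' σ) / p) σ τ - C2 σ τ) =
        (dd (μ v) σ τ - p * C2 σ τ) - (Θ' σ + Θ' τ - Θ' (σ * τ)) := by
      unfold dd
      linear_combination h1 + h2 - h3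
    have h8 : (p : ℤ) * (p : ℤ) ^ m ∣ (p : ℤ) * (dd (fun σ => (μ v σ - Θ' σ) / p) σ τ - C2 σ τ) := by
      rw [h7, ← pow_succ']
      exact dvd_sub h4 h6
    exact (mul_dvd_mul_iff_left hp0).1 h8
  · refine (bk_fin hp hz a d).subset fun v hv => ?_
    exact fun h => hv (neg_eq_zero.2 h)
  · intro v hv
    show -Bk p (m + 1) z v a d = 0
    rw [hsymm v hv, neg_zero]
  · rw [finsum_neg_distrib, neg_eq_zero]
    exact N.rk hp (m + 1) K z hz hmm a (N.dpn hp ha1) d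
  · intro v hv
    have h1 : ρ2 (Fr.F v * L.t v) = ρ2 (L.t v * Fr.F v) := by
      rw [map_mul, map_mul]
      have h2 := (isFrK_of hp hζ hzk Fr v hv).2.2 (Xt e he) ρ2 hρ2f (fun τ hτ => htm2 v hv τ (by
        rw [inr, dif_pos hv]
        exact hτ))
      have h3 : L.t v = (L.ld v hv).t := by rw [LDs.t, dif_pos hv]
      rw [h3]
      exact h2
    have h2 := (hfac2l _ _ h1).2
    have h5 := hC2p (Fr.F v) (L.t v)
    have h6 := hC2p (L.t v) (Fr.F v)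
    unfold dd at h5 h6
    have h7 : C1 (Fr.F v) (L.t v) = C (Fr.F v) (L.t v) +
      ((Θ (Fr.F v)).val : ℤ) * ((Ψ (L.t v)).val : ℤ) := rfl
    have h8 : C1 (L.t v) (Fr.F v) = C (L.t v) (Fr.F v) +
      ((Θ (L.t v)).val : ℤ) * ((Ψ (Fr.F v)).val : ℤ) := rfl
    rw [h7, h2] at h5
    rw [h8] at h6
    have h9 : (p : ℤ) * (C2 (Fr.F v) (L.t v) - C2 (L.t v) (Fr.F v)) =
        (C (Fr.F v) (L.t v) - C (L.t v) (Fr.F v)) +
        (((Θ (Fr.F v)).val : ℤ) * ((Ψ (L.t v)).val : ℤ) -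
          ((Θ (L.t v)).val : ℤ) * ((Ψ (Fr.F v)).val : ℤ)) := by
      linear_combination h5 - h6
    rw [h9]
    have h10 := tor_bk hp hz hL Fr hΘ hΨ hv
    push_cast
    rw [ZMod.natCast_zmod_val, ZMod.natCast_zmod_val, ZMod.natCast_zmod_val,
      ZMod.natCast_zmod_val, ← h10]
    ring

end H24.RK
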