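import Pool.Agent.H24.RK.Ltr
import Pool.Agent.H48.MF.Hasf

/-!
# [H24 RK HAS] Hasse principle, inertia of order `p ^ k`

`hasK_step`, `haspK`, `hasfK` as `has_step`, `hasp`, `hasf` (H48/MF/Hasp.lean, Hasf.lean) with `LTK k` instead of `LT`; `K` contains the roots of unity of order
`p ^ (k + 1)`.
-/

set_option autoImplicit false

open scoped NumberField Pointwise
open IsDedekindDomain

noncomputable section

namespace H24.RK

open H63.MA H38.BB H38.BG H57.PC H57.BRA H89.BRG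

theorem bcpK_lt {K : Type} [Field K] [NumberField K] {L : Type} [Field L] [NumberField L]
    [Algebra K L] {Ω : Type} [Field Ω] [Algebra K Ω] [Algebra L Ω] [IsScalarTower K L Ω]
    {p k : ℕ} {R : Type} [Group R] {e : R → R → ZMod p} {ρ : Gal(Ω/K) →* R} {w : Pl L}
    {v : Pl K} (h : Over w v) {P : Ideal (𝓞 Ω)} (hP : P.under (𝓞 L) = w.asIdeal)
    (hl : LTK k e ρ P) : LTK k e (ρ.comp (rsK K L Ω)) P :=
  ⟨fun _ hτ => hl.1 _ (bcp_inertia hτ), fun _ hF _ hτ => hl.2 _ (bcp_frp h hP hF) _ (bcp_inertia hτ)⟩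

private theorem hg_tvkl {K : Type} [Field K] {Ω : Type} [Field Ω] [Algebra K Ω] {p : ℕ}
    {X Y : Gal(Ω/K) → Gal(Ω/K) → ZMod p} (h : Tv (fun σ τ => X σ τ + Y σ τ))
    {V : Set Gal(Ω/K)} (hX : Kl X V) : Kl Y V := by
  obtain ⟨l, ⟨E, hE, hEl⟩, hl⟩ := h
  obtain ⟨m, ⟨E', hE', hEm⟩, hm⟩ := hX
  refine ⟨fun σ => l σ - m σ, ⟨E ⊔ E', IntermediateField.finiteDimensional_sup _ _, ?_⟩, ?_⟩
  · intro σ u hu
    have h1 : u ∈ E.fixingSubgroup := IntermediateField.fixingSubgroup_antitone le_sup_left hu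
    have h2 : u ∈ E'.fixingSubgroup := IntermediateField.fixingSubgroup_antitone le_sup_right hu
    simp only [hEl σ u h1, hEm σ u h2]
  · intro σ hσ τ hτ
    have h1 := hl σ τ
    have h2 := hm σ hσ τ hτ
    simp only [h1, h2]
    ring

theorem hasK_step {p k : ℕ} (hk : 0 < k) (hp : p.Prime) {R : Type} [Group R] [Finite R] {e : R → R → ZMod p}
    (he : Coc p e) {K : Type} [Field K] [NumberField K] {ζ : K} (hζ : IsPrimitiveRoot ζ p)
    (hp2 : MOne p K) (hz : Zn p (k + 1) K) {Ω : Type} [Field Ω] [Algebra K Ω] [IsAlgClosure K Ω]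
    (ρ : Gal(Ω/K) →* R) (hρ : H38.ML.FT ρ) (S : Finset (Pl K)) (hSa : ∀ v, Above p v → v ∈ S)
    (hSd : ∀ v ∈ S, ∀ P : Ideal (𝓞 Ω), P.IsPrime → P.under (𝓞 K) = v.asIdeal →
      Kl (pb e ρ) (Dc K P : Set Gal(Ω/K)))
    (hloc : ∀ v, v ∉ S → ∀ P : Ideal (𝓞 Ω), P.IsPrime → P.under (𝓞 K) = v.asIdeal → LTK k e ρ P)
    (c : Kˣ) (hc : ¬ IsPow p c) (hK : Kl (pb e ρ) {σ : Gal(Ω/K) | kk p ζ c σ = 0}) :
    Tv (pb e ρ) := by
  obtain ⟨d, hd⟩ := bq hp hζ (c2_pb he hρ) hc hK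
  obtain ⟨x, hx1, hx2, hx3⟩ := brg_norm (Ω := Ω) hp hp2 hζ hc d S (by
    intro v hv
    obtain ⟨P, hP, hPv⟩ := gloc_over K Ω v.asIdeal v.isPrime
    exact ⟨P, hP, hPv, hg_tvkl hd (hSd v hv P hP hPv)⟩)
  have hB : ∀ v : Pl K, v ∉ S → B p ζ v c d = 0 := by
    intro v hvS
    have hv : ¬ Above p v := fun h => hvS (hSa v h)
    obtain ⟨π, hπ⟩ := H63.MA.exists_unif v
    obtain ⟨Lv⟩ := exists_LD Ω hp hζ hv hπ
    obtain ⟨F, _, hF⟩ := frob_univK hp hζ hz hv hπ Lv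
    have hLT := hloc v hvS Lv.P Lv.prime Lv.under
    have h1 := locK_one hk hp hζ he hρ c d hv hπ Lv hF hLT.1 hd
    have hFr : FrP Lv.P F := by
      refine ⟨1, fun x => ?_⟩
      rw [Lv.under, pow_one]
      exact hF.1 x
    have h2 := (hLT.2 F hFr Lv.t Lv.ht).2
    rw [h2, zero_add] at h1
    exact h1
  have hpr : Prim p x := by
    intro v hv
    refine ⟨1, ?_⟩
    rw [one_pow, inv_one, mul_one]
    exact hx3 v (hSa v hv)
  have hBx : ∀ v : Pl K, ¬ Above p v → B p ζ v x c = 0 := by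
    intro v hv
    rw [B_symm hp hζ hv, neg_eq_zero]
    by_cases hvS : v ∈ S
    · apply B_of_one1 hp hζ hv
      have h1 := hx3 v hvS
      have h2 : v.valuation K (p : K) = 1 := by
        refine le_antisymm ?_ ?_
        · have h3 := v.valuation_le_one (K := K) (p : 𝓞 K)
          have h4 : algebraMap (𝓞 K) K (p : 𝓞 K) = (p : K) := map_natCast (algebraMap (𝓞 K) K) p
          rw [← h4]
          exact h3
        · by_contra h3
          exact hv ((above_iff p v).2 (not_le.1 h3))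
      rw [map_pow, h2, one_pow] at h1
      exact h1
    · rw [hx2 v hv, hB v hvS]
  have hcu := glg_triv Ω hp hp2 hζ x c hpr hBx
  have hsw := tv_swap (Ω := Ω) hp hζ x c
  have h3 := tv_add _ _ hd (tv_smul (-1) _ (tv_add _ _ hx1 (tv_add _ _ hsw
    (tv_smul (-1) _ hcu))))
  have e1 : (fun σ τ : Gal(Ω/K) => pb e ρ σ τ + cu p ζ c d σ τ +
      (-1) * (cu p ζ c d σ τ - cu p ζ c x σ τ +
      (cu p ζ x c σ τ + cu p ζ c x σ τ +
      (-1) * cu p ζ x c σ τ))) = pb e ρ := by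
    funext σ τ
    ring
  rw [e1] at h3
  exact h3

private theorem hp_chi {A : Type} [Group A] [Finite A] {p n : ℕ} (hp : p.Prime)
    (hA : Nat.card A = p ^ (n + 1)) : ∃ q : A →* Multiplicative (ZMod p), Nat.card q.ker = p ^ n := by
  have : Fact p.Prime := ⟨hp⟩
  obtain ⟨B, hB⟩ := Sylow.exists_subgroup_card_pow_prime (G := A) p
    (show p ^ n ∣ Nat.card A by rw [hA]; exact pow_dvd_pow p (Nat.le_succ n))
  have hi : B.index = p := by
    have h1 := B.card_mul_index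
    rw [hA, hB, pow_succ] at h1
    exact Nat.eq_of_mul_eq_mul_left (pow_pos hp.pos n) h1
  have hn : B.Normal := by
    apply Subgroup.normal_of_index_eq_minFac_card
    rw [hi, hA, hp.pow_minFac (Nat.succ_ne_zero n)]
  have hc : Nat.card (A ⧸ B) = p := hi
  have hz : Nat.card (Multiplicative (ZMod p)) = p := Nat.card_zmod p
  let e : A ⧸ B ≃* Multiplicative (ZMod p) := mulEquivOfPrimeCardEq hc hz
  refine ⟨e.toMonoidHom.comp (QuotientGroup.mk' B), ?_⟩
  have h1 : (e.toMonoidHom.comp (QuotientGroup.mk' B)).ker = B := by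
    ext g
    rw [MonoidHom.mem_ker]
    show e ((QuotientGroup.mk' B) g) = 1 ↔ g ∈ B
    rw [EmbeddingLike.map_eq_one_iff]
    exact QuotientGroup.eq_one_iff g
  rw [h1]
  exact hB

theorem haspK {p k : ℕ} (hk : 0 < k) (hp : p.Prime) {R : Type} [Group R] [Finite R] {e : R → R → ZMod p}
    (he : Coc p e) (n : ℕ) :
    ∀ (K : Type) [Field K] [NumberField K] (ζ : K) (_ : IsPrimitiveRoot ζ p) (_ : MOne p K)
      (_ : Zn p (k + 1) K) (Ω : Type) [Field Ω] [Algebra K Ω] [IsAlgClosure K Ω] (ρ : Gal(Ω/K) →* R)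
      (_ : H38.ML.FT ρ) (S : Finset (Pl K)) (_ : ∀ v, Above p v → v ∈ S)
      (_ : ∀ v ∈ S, ∀ P : Ideal (𝓞 Ω), P.IsPrime → P.under (𝓞 K) = v.asIdeal →
        Kl (pb e ρ) (Dc K P : Set Gal(Ω/K)))
      (_ : ∀ v, v ∉ S → ∀ P : Ideal (𝓞 Ω), P.IsPrime → P.under (𝓞 K) = v.asIdeal → LTK k e ρ P)
      (_ : Nat.card ρ.range = p ^ n), Tv (pb e ρ) := by
  induction n with
  | zero =>
    intro K _ _ ζ _ _ _ Ω _ _ _ ρ _ S _ _ _ hcard
    rw [pow_zero] at hcard
    have h1 : ∀ σ, ρ σ = 1 := by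
      intro σ
      have h2 : ρ.range = ⊥ := Subgroup.card_eq_one.1 hcard
      have h3 : ρ σ ∈ ρ.range := ⟨σ, rfl⟩
      rw [h2] at h3
      exact Subgroup.mem_bot.1 h3
    refine ⟨fun _ => 0, ⟨⊥, inferInstance, fun _ _ _ => rfl⟩, fun σ τ => ?_⟩
    show (0 : ZMod p) = 0 + 0 + e (ρ σ) (ρ τ)
    rw [h1 σ, he.l1, add_zero, add_zero]
  | succ n ih =>
    intro K _ _ ζ hζ hp2 hz Ω _ _ _ ρ hρ S hSa hSd hloc hcard
    obtain ⟨q, hq⟩ := hp_chi (A := ρ.range) hp hcard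
    obtain ⟨χ, hχ⟩ : ∃ χ : Gal(Ω/K) →* Multiplicative (ZMod p), χ = q.comp ρ.rangeRestrict :=
      ⟨_, rfl⟩
    have hχf : H38.ML.FT χ := by
      obtain ⟨E, hE, hEl⟩ := hρ
      refine ⟨E, hE, fun σ hσ => ?_⟩
      have h1 : ρ.rangeRestrict σ = 1 := Subtype.ext (MonoidHom.mem_ker.1 (hEl hσ))
      rw [MonoidHom.mem_ker, hχ, MonoidHom.comp_apply, h1, map_one]
    obtain ⟨c, hc⟩ := kc_all hp hζ χ hχf
    have hkk : ∀ σ : Gal(Ω/K), kk p ζ c σ = 0 ↔ q (ρ.rangeRestrict σ) = 1 := by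
      intro σ
      show Multiplicative.toAdd (kc p ζ Ω c σ) = 0 ↔ _
      rw [← hc, hχ]
      constructor
      · intro h
        exact Multiplicative.toAdd.injective h
      · intro h
        rw [MonoidHom.comp_apply, h]
        rfl
    have hpow : ¬ IsPow p c := by
      intro h
      have h1 : ∀ σ : Gal(Ω/K), kk p ζ c σ = 0 := (kk_eq_zero_iff hp hζ _).2 h
      have h2 : q.ker = ⊤ := by
        rw [eq_top_iff]
        rintro ⟨y, σ, rfl⟩ -
        exact (hkk σ).1 (h1 σ)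
      rw [h2, Subgroup.card_top, hcard] at hq
      have h3 := Nat.pow_right_injective hp.two_le hq
      omega
    obtain ⟨L, _, _, _, _, _, ⟨H⟩⟩ := bca_exists Ω hp hζ hpow
    have : IsAlgClosure L Ω := bca_clo K L Ω
    have hran : (ρ.comp (rsK K L Ω)).range = q.ker.map ρ.range.subtype := by
      ext y
      constructor
      · rintro ⟨σ, rfl⟩
        refine ⟨ρ.rangeRestrict (rsK K L Ω σ), ?_, rfl⟩
        exact (hkk _).1 ((bca_range hp hζ H _).2 ⟨σ, rfl⟩)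
      · rintro ⟨⟨_, σ, rfl⟩, hy, rfl⟩
        obtain ⟨σ', rfl⟩ := (bca_range hp hζ H σ).1 ((hkk σ).2 hy)
        exact ⟨σ', rfl⟩
    have hT : Tv (pb e (ρ.comp (rsK K L Ω))) := by
      have hfin : {w : Pl L | ∃ v ∈ S, Over w v}.Finite := by
        have h1 : {w : Pl L | ∃ v ∈ S, Over w v} = ⋃ v ∈ S, {w : Pl L | Over w v} := by
          ext w
          simp only [Set.mem_ofPred_eq, Set.mem_iUnion, exists_prop]
        rw [h1]
        exact Set.Finite.biUnion S.finite_toSet fun v _ => over_finite v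
      have hmem : ∀ w : Pl L, w ∈ hfin.toFinset ↔ ∃ v ∈ S, Over w v := by
        intro w
        rw [Set.Finite.mem_toFinset]
        rfl
      refine ih L (algebraMap K L ζ) (GBase_zeta hζ) (mone_map hp2 L) (hz.map L) Ω
        (ρ.comp (rsK K L Ω)) (bca_ft hρ) hfin.toFinset ?_ ?_ ?_ ?_
      · intro w hw
        obtain ⟨v, hv⟩ := exists_below (K := K) w
        exact (hmem w).2 ⟨v, hSa v ((above_over hv p).1 hw), hv⟩
      · intro w hw P hP hPw
        obtain ⟨v, hvS, hv⟩ := (hmem w).1 hw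
        exact dc_kl_rs (hSd v hvS P hP (bcp_under hv hPw))
      · intro w hw P hP hPw
        obtain ⟨v, hv⟩ := exists_below (K := K) w
        have hvS : v ∉ S := fun h => hw ((hmem w).2 ⟨v, h, hv⟩)
        exact bcpK_lt hv hPw (hloc v hvS P hP (bcp_under hv hPw))
      · rw [hran, ← hq]
        exact (Nat.card_congr (q.ker.equivMapOfInjective ρ.range.subtype
          ρ.range.subtype_injective).toEquiv).symm
    have hK : Kl (pb e ρ) {σ : Gal(Ω/K) | kk p ζ c σ = 0} := by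
      obtain ⟨g, hg, hg2⟩ := hT
      obtain ⟨f, hf, hfg⟩ := bca_lev' (K := K) hg
      refine ⟨f, hf, fun σ hσ τ hτ => ?_⟩
      obtain ⟨σ', rfl⟩ := (bca_range hp hζ H σ).1 hσ
      obtain ⟨τ', rfl⟩ := (bca_range hp hζ H τ).1 hτ
      rw [← map_mul, hfg, hfg, hfg]
      exact hg2 σ' τ'
    exact hasK_step hk hp he hζ hp2 hz ρ hρ S hSa hSd hloc c hpow hK

theorem hasfK {p k : ℕ} (hk : 0 < k) (hp : p.Prime) {R : Type} [Group R] [Finite R] {e : R → R → ZMod p}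
    (he : Coc p e) {K : Type} [Field K] [NumberField K] {ζ : K} (hζ : IsPrimitiveRoot ζ p)
    (hp2 : MOne p K) (hz : Zn p (k + 1) K) {Ω : Type} [Field Ω] [Algebra K Ω] [IsAlgClosure K Ω]
    (ρ : Gal(Ω/K) →* R) (hρ : H38.ML.FT ρ) (S : Finset (Pl K)) (hSa : ∀ v, Above p v → v ∈ S)
    (hSd : ∀ v ∈ S, ∀ P : Ideal (𝓞 Ω), P.IsPrime → P.under (𝓞 K) = v.asIdeal →
      Kl (pb e ρ) (Dc K P : Set Gal(Ω/K)))
    (hloc : ∀ v, v ∉ S → ∀ P : Ideal (𝓞 Ω), P.IsPrime → P.under (𝓞 K) = v.asIdeal → LTK k e ρ P) :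
    Tv (pb e ρ) := by
  classical
  have hpf : Fact p.Prime := ⟨hp⟩
  obtain ⟨P0⟩ : Nonempty (Sylow p ρ.range) := inferInstance
  obtain ⟨U, hU⟩ : ∃ U : Subgroup Gal(Ω/K), U = (P0 : Subgroup ρ.range).comap ρ.rangeRestrict := ⟨_, rfl⟩
  have hmemU : ∀ σ, σ ∈ U ↔ ρ.rangeRestrict σ ∈ (P0 : Subgroup ρ.range) := by
    intro σ
    rw [hU, Subgroup.mem_comap]
  have hidx : U.index = (P0 : Subgroup ρ.range).index := by
    rw [hU, Subgroup.index_comap_of_surjective _ ρ.rangeRestrict_surjective]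
  obtain ⟨E, hE, hEk⟩ := hρ
  have hEU : E.fixingSubgroup ≤ U := by
    intro u hu
    rw [hmemU]
    have h1 : ρ.rangeRestrict u = 1 := by
      apply Subtype.ext
      exact hEk hu
    rw [h1]
    exact one_mem _
  obtain ⟨hfix, hfin⟩ := H38.ML.fixing_fixedField U E hEU
  obtain ⟨M, hM⟩ : ∃ M : IntermediateField K Ω, M = IntermediateField.fixedField U := ⟨_, rfl⟩
  rw [← hM] at hfix hfin
  have hclo : IsAlgClosure M Ω := bca_clo K M Ω
  have hnf : NumberField M := NumberField.of_module_finite K M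
  -- the range of the restriction
  have hrange : ∀ σ : Gal(Ω/K), σ ∈ U ↔ ∃ σ' : Gal(Ω/M), rsK K M Ω σ' = σ := by
    intro σ
    rw [← hfix]
    constructor
    · intro hσ
      refine ⟨AlgEquiv.ofRingEquiv (f := (σ : Ω ≃+* Ω)) fun x => ?_, ?_⟩
      · exact (IntermediateField.mem_fixingSubgroup_iff M σ).1 hσ x x.2
      · ext x
        rw [rsK_apply]
        rfl
    · rintro ⟨σ', rfl⟩
      rw [IntermediateField.mem_fixingSubgroup_iff]
      intro x hx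
      rw [rsK_apply]
      exact σ'.commutes ⟨x, hx⟩
  -- the order of the image
  obtain ⟨n, hn⟩ : ∃ n, Nat.card (P0 : Subgroup ρ.range) = p ^ n := IsPGroup.iff_card.1 P0.2
  have hcard : Nat.card (ρ.comp (rsK K M Ω)).range = p ^ n := by
    have h1 : (ρ.comp (rsK K M Ω)).range = (P0 : Subgroup ρ.range).map ρ.range.subtype := by
      ext r
      constructor
      · rintro ⟨σ', rfl⟩
        exact ⟨ρ.rangeRestrict (rsK K M Ω σ'), (hmemU _).1 ((hrange _).2 ⟨σ', rfl⟩), rfl⟩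
      · rintro ⟨a, ha, rfl⟩
        obtain ⟨σ, rfl⟩ := ρ.rangeRestrict_surjective a
        obtain ⟨σ', rfl⟩ := (hrange σ).1 ((hmemU σ).2 ha)
        exact ⟨σ', rfl⟩
    rw [h1, ← hn]
    exact Nat.card_congr ((P0 : Subgroup ρ.range).equivMapOfInjective ρ.range.subtype
      ρ.range.subtype_injective).symm.toEquiv
  have hfinS : {w : Pl M | ∃ v ∈ S, Over w v}.Finite := by
    have h1 : {w : Pl M | ∃ v ∈ S, Over w v} = ⋃ v ∈ S, {w : Pl M | Over w v} := by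
      ext w
      simp only [Set.mem_ofPred_eq, Set.mem_iUnion, exists_prop]
    rw [h1]
    exact Set.Finite.biUnion S.finite_toSet fun v _ => over_finite v
  have hmem : ∀ w : Pl M, w ∈ hfinS.toFinset ↔ ∃ v ∈ S, Over w v := by
    intro w
    rw [Set.Finite.mem_toFinset]
    rfl
  have hT : Tv (pb e (ρ.comp (rsK K M Ω))) := by
    refine haspK hk hp he n M (algebraMap K M ζ) (GBase_zeta hζ) (mone_map hp2 M) (hz.map M) Ω
      (ρ.comp (rsK K M Ω)) (bca_ft ⟨E, hE, hEk⟩) hfinS.toFinset ?_ ?_ ?_ hcard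
    · intro w hw
      obtain ⟨v, hv⟩ := exists_below (K := K) w
      exact (hmem w).2 ⟨v, hSa v ((above_over hv p).1 hw), hv⟩
    · intro w hw P hP hPw
      obtain ⟨v, hvS, hv⟩ := (hmem w).1 hw
      exact dc_kl_rs (hSd v hvS P hP (bcp_under hv hPw))
    · intro w hw P hP hPw
      obtain ⟨v, hv⟩ := exists_below (K := K) w
      have hvS : v ∉ S := fun h => hw ((hmem w).2 ⟨v, h, hv⟩)
      exact bcpK_lt hv hPw (hloc v hvS P hP (bcp_under hv hPw))
  have hK : Kl (pb e ρ) (U : Set Gal(Ω/K)) := by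
    obtain ⟨g, hg, hg2⟩ := hT
    obtain ⟨f, hf, hfg⟩ := bca_lev' (K := K) hg
    refine ⟨f, hf, fun σ hσ τ hτ => ?_⟩
    obtain ⟨σ', rfl⟩ := (hrange σ).1 hσ
    obtain ⟨τ', rfl⟩ := (hrange τ).1 hτ
    rw [← map_mul, hfg, hfg, hfg]
    exact hg2 σ' τ'
  refine H48.MF.tv_desc hp (c2_pb he ⟨E, hE, hEk⟩) U ⟨E, hE, hEU⟩ ⟨?_⟩ ?_ hK
  · rw [hidx]
    exact (inferInstance : (P0 : Subgroup ρ.range).FiniteIndex).index_ne_zero
  · rw [hidx]
    exact P0.not_dvd_index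

end H24.RK
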