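import Pool.Agent.H24.RK.Brf
import Pool.Agent.H24.RK.Nrm
import Pool.Agent.H51.MT.Brg

/-!
# [H24 RK KIL] a class is killed by a symbol

* `gmul`: an element `a`, close to `1` above `p` and at `S0`, a unit with `lg a = 1` at the primes of `T`.
* `kil`: `pb e ρ`, locally trivial at `S0`, is minus the class of `(a, d)` for some `d`.
-/

set_option autoImplicit false

open scoped NumberField Pointwise
open IsDedekindDomain

noncomputable section

namespace H24.RK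

open H63.MA H38.BB H38.BG H57.PC H57.BRA H89.BRG H57.RQ

variable {K : Type} [Field K] [NumberField K] {Ω : Type} [Field Ω] [Algebra K Ω] [IsAlgClosure K Ω]
  {p : ℕ} {ζ : K}

/-- the element `a` -/
theorem gmul (hp : p.Prime) (hζ : IsPrimitiveRoot ζ p) (n : ℕ) (S T : Finset (Pl K))
    (hT : ∀ v ∈ T, v ∉ S ∧ ¬ Above p v) : ∃ a : Kˣ, Dp p n a ∧
      (∀ v ∈ S, v.valuation K ((a : K) - 1) < v.valuation K ((p : K) ^ n)) ∧
      (∀ v ∈ S, ¬ Above p v → One1 v a) ∧ ∀ v ∈ T, ord v a = 0 ∧ lg p ζ v a = 1 := by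
  classical
  have hy : ∀ v : Pl K, ∃ y : Kˣ, (v ∈ S → y = 1) ∧
      (v ∉ S → ¬ Above p v → ord v y = 0 ∧ lg p ζ v y = 1) := by
    intro v
    by_cases hvS : v ∈ S
    · exact ⟨1, fun _ => rfl, fun h => absurd hvS h⟩
    · by_cases hv : Above p v
      · exact ⟨1, fun _ => rfl, fun _ h => absurd hv h⟩
      · obtain ⟨z, h1, h2⟩ := exists_lg hp hζ hv 1
        exact ⟨z, fun h => absurd h hvS, fun _ _ => ⟨h1, h2⟩⟩
  choose y hy1 hy2 using hy
  obtain ⟨a, ha1, ha2⟩ := wap hp n (S.filter (fun v => ¬ Above p v) ∪ T) (fun v hv => by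
    rcases Finset.mem_union.1 hv with h | h
    · exact (Finset.mem_filter.1 h).2
    · exact (hT v h).2) y
  have hone : ∀ v ∈ S, ¬ Above p v → One1 v a := by
    intro v hv hva
    have h3 := ha2 v (Finset.mem_union_left _ (Finset.mem_filter.2 ⟨hv, hva⟩))
    rwa [hy1 v hv, inv_one, mul_one] at h3
  refine ⟨a, ha1, fun v hv => ?_, hone, fun v hv => ?_⟩
  · by_cases hva : Above p v
    · exact ha1 v hva
    · have h1 : v.valuation K (p : K) = 1 := by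
        apply le_antisymm
        · have h2 := v.valuation_le_one (K := K) (p : 𝓞 K)
          simpa using h2
        · rw [← not_lt]
          intro h
          exact hva ((above_iff p v).2 h)
      rw [map_pow, h1, one_pow]
      exact hone v hv hva
  · obtain ⟨hvS, hva⟩ := hT v hv
    obtain ⟨h1, h2⟩ := hy2 v hvS hva
    have h3 := ha2 v (Finset.mem_union_right _ hv)
    have h4 : a = a * (y v)⁻¹ * y v := by rw [inv_mul_cancel_right]
    constructor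
    · rw [h4, ord_mul, ord_of_one1 h3, h1, add_zero]
    · rw [h4, lg_mul hp hζ hva (ord_of_one1 h3) h1, lg_of_one1 hp hζ hva h3, h2, zero_add]

theorem kil {k : ℕ} (hk : 0 < k) (hp : p.Prime) (hp2 : MOne p K) (hζ : IsPrimitiveRoot ζ p)
    (hz : Zn p (k + 1) K) {D : RD0 K p ζ} {L : LDs D Ω} (Q : DP K Ω) (Fr : FR L) {R : Type}
    [Group R] [Finite R] {e : R → R → ZMod p} (he : Coc p e) {ρ : Gal(Ω/K) →* R}
    (hρ : H38.ML.FT ρ)
    (hS : ∀ v ∈ D.S0, Kl (pb e ρ) (dec (K := K) (Q.P v) : Set Gal(Ω/K)))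
    (htm : ∀ v, v ∉ D.S0 → ∀ τ ∈ inr L v, ρ τ ^ (p ^ k) = 1)
    (T : Finset (Pl K)) (hT : ∀ v ∈ T, v ∉ D.S0)
    (hur : ∀ v, v ∉ D.S0 → v ∉ T → ρ (L.t v) = 1) {c2 : Kˣ}
    (hc3 : ∀ v ∈ T, ord v c2 = 0 ∧ lg p ζ v c2 = 1) :
    ∃ d : Kˣ, Tv (fun σ τ : Gal(Ω/K) => pb e ρ σ τ + cu p ζ c2 d σ τ) := by
  classical
  rcases T.eq_empty_or_nonempty with rfl | ⟨v₀, hv₀⟩
  · refine ⟨1, ?_⟩
    have h1 : Tv (pb e ρ) := brg1K hk hp hp2 hζ hz Q Fr he hρ hS htm (fun v hv => by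
      rw [hur v hv (Finset.notMem_empty v), iv_swap, iv_one_left he, neg_zero])
    obtain ⟨l, hl, hl2⟩ := h1
    refine ⟨l, hl, fun σ τ => ?_⟩
    have h2 : kk p ζ (1 : Kˣ) τ = 0 := (kk_eq_zero_iff (Ω := Ω) hp hζ 1).2 ⟨1, one_pow p⟩ τ
    show l (σ * τ) = l σ + l τ + (pb e ρ σ τ + kk p ζ c2 σ * kk p ζ (1 : Kˣ) τ)
    rw [h2, mul_zero, add_zero]
    exact hl2 σ τ
  have hpf : Fact p.Prime := ⟨hp⟩
  have hna : ∀ v, v ∉ D.S0 → ¬ Above p v := fun v hv h => hv (D.above v h)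
  have hcp : ¬ IsPow p c2 := by
    rintro ⟨x, hx⟩
    obtain ⟨h3, h4⟩ := hc3 v₀ hv₀
    have h5 : ord v₀ x = 0 := by
      rw [← hx, ord_pow] at h3
      rcases mul_eq_zero.1 h3 with h | h
      · exact absurd (by exact_mod_cast h) hp.ne_zero
      · exact h
    rw [← hx, ← zpow_natCast, lg_zpow hp hζ (hna v₀ (hT v₀ hv₀)) h5] at h4
    push_cast at h4
    rw [ZMod.natCast_self, zero_mul] at h4
    exact zero_ne_one h4
  obtain ⟨M, _, _, _, _, _, ⟨H⟩⟩ := bca_exists Ω hp hζ hcp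
  have hclo : IsAlgClosure M Ω := bca_clo K M Ω
  have hM : Tv (pb e (ρ.comp (rsK K M Ω))) := by
    have hfin : {w : Pl M | ∃ v ∈ D.S0, Over w v}.Finite := by
      have h1 : {w : Pl M | ∃ v ∈ D.S0, Over w v} = ⋃ v ∈ D.S0, {w : Pl M | Over w v} := by
        ext w
        simp only [Set.mem_ofPred_eq, Set.mem_iUnion, exists_prop]
      rw [h1]
      exact Set.Finite.biUnion D.S0.finite_toSet fun v _ => over_finite v
    have hmem : ∀ w : Pl M, w ∈ hfin.toFinset ↔ ∃ v ∈ D.S0, Over w v := by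
      intro w
      rw [Set.Finite.mem_toFinset]
      rfl
    refine hasfK hk hp he (GBase_zeta hζ) (mone_map hp2 M) (hz.map M)
      (ρ.comp (rsK K M Ω)) (bca_ft hρ) hfin.toFinset
      (fun w hw => ?_) (fun w hw P hP hPw => ?_) (fun w hw => ?_)
    · obtain ⟨v, hv⟩ := exists_below (K := K) w
      exact (hmem w).2 ⟨v, D.above v ((above_over hv p).1 hw), hv⟩
    · obtain ⟨v, hvS, hv⟩ := (hmem w).1 hw
      exact dc_kl_rs (brg_dc he hρ (fun v hv => ⟨Q.P v, Q.prime v, Q.under v, qd_kl (hS v hv)⟩)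
        v hvS P hP (bcp_under hv hPw))
    · obtain ⟨v, hwv⟩ := exists_below (K := K) w
      have hvS : v ∉ D.S0 := fun h => hw ((hmem w).2 ⟨v, h, hwv⟩)
      intro P hP hPw
      obtain ⟨h1, h2⟩ := brK_loc hp hζ hz Fr he hρ hvS (htm v hvS) P hP (bcp_under hwv hPw)
      refine ⟨fun τ hτ => h1 _ (bcp_inertia hτ), fun F' hF' τ' hτ' => ?_⟩
      obtain ⟨h3, k1, j, h4, h5⟩ := h2 (rsK K M Ω F') (bcp_frp hwv hPw hF') (rsK K M Ω τ')
        (bcp_inertia hτ')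
      refine ⟨h3, ?_⟩
      change iv e (ρ (rsK K M Ω F')) (ρ (rsK K M Ω τ')) = 0
      rw [h4]
      by_cases hvT : v ∈ T
      · have h6 := h5 c2 (hc3 v hvT).1
        rw [(hc3 v hvT).2, mul_one, (bca_range hp hζ H _).2 ⟨F', rfl⟩] at h6
        rw [← h6, zero_mul, zero_mul]
      · rw [hur v hvS hvT, iv_swap, iv_one_left he, neg_zero, mul_zero]
  obtain ⟨l', hl1, hl2⟩ := hM
  obtain ⟨l, hl3, hl4⟩ := bca_lev' (K := K) (L := M) hl1
  exact bq hp hζ (c2_pb he hρ) hcp ⟨l, hl3, fun σ hσ τ hτ => by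
    obtain ⟨σ', rfl⟩ := (bca_range hp hζ H σ).1 hσ
    obtain ⟨τ', rfl⟩ := (bca_range hp hζ H τ).1 hτ
    rw [← map_mul, hl4, hl4, hl4]
    exact hl2 σ' τ'⟩

end H24.RK
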